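import Pool.Agent.Q263.ZO.Engine
import Pool.Agent.H447R2.MZ.Dich

/-!
# The zero-one law for the dimensions of the weight spaces
-/

set_option autoImplicit false

open Module Filter

namespace Pool.Agent.Q263.ZO

open Pool.Agent.H447R2.MZ

/-- The known facts about the algebra `H` of motivic multiple zeta values: an integral domain with
subspaces `W n` of dimension `d n`, `W a * W b ⊆ W (a + b)`, and a homomorphism `per : H → ℝ` of
`ℚ`-algebras with `per (W n) = Z n`. -/
structure Motivic (Z : ℕ → Submodule ℚ ℝ) where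
  /-- the algebra of motivic multiple zeta values -/
  H : Type
  [ring : CommRing H]
  [dom : IsDomain H]
  [alg : Algebra ℚ H]
  /-- the part of weight `n` -/
  W : ℕ → Submodule ℚ H
  fin : ∀ n, FiniteDimensional ℚ (W n)
  rank : ∀ n, finrank ℚ (W n) = d n
  mul : ∀ a b x y, x ∈ W a → y ∈ W b → x * y ∈ W (a + b)
  /-- the period map -/
  per : H →ₐ[ℚ] ℝ
  map : ∀ n, (W n).map per.toLinearMap = Z n

attribute [instance] Motivic.ring Motivic.dom Motivic.alg Motivic.fin

variable {Z : ℕ → Submodule ℚ ℝ}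

theorem Motivic.le (M : Motivic Z) (n : ℕ) : finrank ℚ (Z n) ≤ d n := by
  rw [← M.map n, ← M.rank n]
  exact map_le _ _

theorem Motivic.finite (M : Motivic Z) (n : ℕ) : FiniteDimensional ℚ (Z n) := by
  rw [← M.map n]
  infer_instance

/-- One weight in which the dimension is too small has consequences in all larger weights. -/
theorem Motivic.step (M : Motivic Z) (n N : ℕ) (hN : n ≤ N) (h : finrank ℚ (Z n) ≠ d n) :
    finrank ℚ (Z N) + d (N - n) ≤ d N := by
  have h1 : finrank ℚ ((M.W n).map M.per.toLinearMap) < finrank ℚ (M.W n) := by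
    rw [M.map n, M.rank n]
    exact lt_of_le_of_ne (M.le n) h
  obtain ⟨x, hx, hx0, hp⟩ := exists_ker _ _ h1
  have h2 := drop M.per.toLinearMap (M.W (N - n)) (M.W N) x hx0
    (fun y hy => by
      have := M.mul n (N - n) x y hx hy
      rwa [Nat.add_sub_cancel' hN] at this)
    (fun y _ => by
      have h3 : M.per x = 0 := hp
      have h4 : M.per (x * y) = 0 := by rw [map_mul, h3, zero_mul]
      exact h4)
  rwa [M.map N, M.rank (N - n), M.rank N] at h2

theorem Motivic.lt (M : Motivic Z) (n N : ℕ) (hN : n ≤ N) (hN1 : N ≠ n + 1)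
    (h : finrank ℚ (Z n) ≠ d n) : finrank ℚ (Z N) < d N := by
  have h1 := M.step n N hN h
  have h2 := d_pos (N - n) (by omega)
  omega

/-- the weights in which the dimension is the expected one -/
def good (Z : ℕ → Submodule ℚ ℝ) : Set ℕ := {n | finrank ℚ (Z n) = d n}

theorem Motivic.class (M : Motivic Z) (n₀ : ℕ) (hlow : ∀ n < n₀, finrank ℚ (Z n) = d n)
    (hn₀ : finrank ℚ (Z n₀) ≠ d n₀) (h0 : 0 < n₀) :
    good Z = Set.Iic (n₀ - 1) ∨ good Z = insert (n₀ - 1 + 2) (Set.Iic (n₀ - 1)) := by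
  have key : ∀ N, N ≠ n₀ + 1 → (N ∈ good Z ↔ N ≤ n₀ - 1) := by
    intro N hN
    constructor
    · intro hg
      by_contra hlt
      have h1 := M.lt n₀ N (by omega) hN hn₀
      exact h1.ne hg
    · intro hle
      exact hlow N (by omega)
  by_cases hg : n₀ + 1 ∈ good Z
  · right
    ext N
    rw [Set.mem_insert_iff, Set.mem_Iic]
    by_cases hN : N = n₀ + 1
    · rw [hN]
      exact ⟨fun _ => Or.inl (by omega), fun _ => hg⟩
    · rw [key N hN]
      constructor
      · exact Or.inr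
      · rintro (h | h)
        · omega
        · exact h
  · left
    ext N
    rw [Set.mem_Iic]
    by_cases hN : N = n₀ + 1
    · rw [hN]
      exact ⟨fun h => absurd h hg, fun h => by omega⟩
    · exact key N hN

theorem Motivic.dichotomy (M : Motivic Z) (hl : ∀ n ≤ 4, finrank ℚ (Z n) = d n) :
    (∀ n, finrank ℚ (Z n) = d n) ∨ ∃ m, 4 ≤ m ∧ (good Z = Set.Iic m ∨ good Z = insert (m + 2) (Set.Iic m)) ∧
      ∀ N, m < N → finrank ℚ (Z N) + d (N - (m + 1)) ≤ d N := by
  classical
  by_cases h : ∀ n, finrank ℚ (Z n) = d n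
  · exact Or.inl h
  · right
    push Not at h
    have hspec := Nat.find_spec h
    have hmin : ∀ n < Nat.find h, finrank ℚ (Z n) = d n := by
      intro n hn
      by_contra hne
      exact Nat.find_min h hn hne
    have h5 : 4 < Nat.find h := by
      by_contra hle
      exact hspec (hl _ (by omega))
    refine ⟨Nat.find h - 1, by omega, M.class _ hmin hspec (by omega), ?_⟩
    intro N hN
    have := M.step (Nat.find h) N (by omega) hspec
    rwa [show Nat.find h - 1 + 1 = Nat.find h by omega]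

/-- the dimension is at most `(1 - 2^(-n)) d N` in large weights -/
theorem Motivic.ratio (M : Motivic Z) (n : ℕ) (h : finrank ℚ (Z n) ≠ d n) (N : ℕ) (hN : n + 2 ≤ N) :
    2 ^ n * finrank ℚ (Z N) ≤ (2 ^ n - 1) * d N := by
  have h1 := M.step n N (by omega) h
  have h2 := d_le_pow (N - n - 2) n
  have e1 : N - n - 2 + n + 2 = N := by omega
  have e2 : N - n - 2 + 2 = N - n := by omega
  rw [e1, e2] at h2
  have h3 : 1 ≤ 2 ^ n := Nat.one_le_two_pow
  have h4 := Nat.mul_le_mul_left (2 ^ n) h1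
  rw [Nat.mul_add] at h4
  have h5 : (2 ^ n - 1) * d N + d N = 2 ^ n * d N := by
    rw [← Nat.succ_mul, Nat.succ_eq_add_one, Nat.sub_add_cancel h3]
  omega

theorem Motivic.iff_frequently (M : Motivic Z) :
    (∀ n, finrank ℚ (Z n) = d n) ↔ ∃ᶠ N in atTop, finrank ℚ (Z N) = d N := by
  constructor
  · intro h
    exact Frequently.of_forall h
  · intro h n
    by_contra hne
    obtain ⟨N, hN, hN2⟩ := (frequently_atTop.1 h) (n + 2)
    exact (M.lt n N (by omega) (by omega) hne).ne hN2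

theorem Motivic.iff_limsup (M : Motivic Z) :
    (∀ n, finrank ℚ (Z n) = d n) ↔
      ∀ ε : ℝ, 0 < ε → ∃ᶠ N in atTop, (1 - ε) * d N < finrank ℚ (Z N) := by
  constructor
  · intro h ε hε
    rw [frequently_atTop]
    intro a
    refine ⟨a + 2, by omega, ?_⟩
    rw [h]
    have := d_pos (a + 2) (by omega)
    have h1 : (1 : ℝ) ≤ d (a + 2) := by exact_mod_cast this
    nlinarith
  · intro h n
    by_contra hne
    obtain ⟨N, hN, hN2⟩ := (frequently_atTop.1 (h ((2 : ℝ) ^ n)⁻¹ (by positivity))) (n + 2)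
    have h1 := M.ratio n hne N hN
    have h3 : 1 ≤ 2 ^ n := Nat.one_le_two_pow
    have h2 : (2 : ℝ) ^ n * finrank ℚ (Z N) ≤ (2 ^ n - 1) * d N := by
      have : ((2 ^ n * finrank ℚ (Z N) : ℕ) : ℝ) ≤ (((2 ^ n - 1) * d N : ℕ) : ℝ) := by
        exact_mod_cast h1
      rw [Nat.cast_mul, Nat.cast_mul, Nat.cast_sub h3] at this
      push_cast at this
      exact this
    have h4 : (0 : ℝ) < 2 ^ n := by positivity
    have h5 : (2 : ℝ) ^ n * ((1 - ((2 : ℝ) ^ n)⁻¹) * d N) = (2 ^ n - 1) * d N := by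
      field_simp
    have h6 := mul_lt_mul_of_pos_left hN2 h4
    rw [h5] at h6
    linarith

theorem Motivic.iff_gap (M : Motivic Z) :
    (∀ n, finrank ℚ (Z n) = d n) ↔ ∀ n, ∃ N, n ≤ N ∧ d N < finrank ℚ (Z N) + d (N - n) := by
  constructor
  · intro h n
    refine ⟨n, le_rfl, ?_⟩
    rw [h, Nat.sub_self]
    simp [d]
  · intro h n
    by_contra hne
    obtain ⟨N, hN, h1⟩ := h n
    have := M.step n N hN hne
    omega

/-! ### Small weights -/

theorem finrank_zero : finrank ℚ (Zs 0) = 1 := by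
  apply finrank_eq_one (⟨1, one_mem⟩ : Zs 0)
  · intro h
    exact one_ne_zero (congrArg Subtype.val h)
  · rintro ⟨x, hx⟩
    obtain ⟨q, rfl⟩ := Zs_zero hx
    exact ⟨q, Subtype.ext (by simp [Rat.smul_def])⟩

theorem finrank_one : finrank ℚ (Zs 1) = 0 := by
  have : Zs 1 = ⊥ := by
    rw [eq_bot_iff]
    intro x hx
    rw [Submodule.mem_bot]
    exact Zs_one hx
  rw [this]
  simp

theorem one_le_of_mem {n : ℕ} [FiniteDimensional ℚ (Zs n)] {x : ℝ} (hx : x ∈ Zs n) (h0 : x ≠ 0) :
    1 ≤ finrank ℚ (Zs n) := by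
  rw [Nat.one_le_iff_ne_zero]
  intro h
  have h1 : Zs n = ⊥ := Submodule.finrank_eq_zero.1 h
  rw [h1, Submodule.mem_bot] at hx
  exact h0 hx

theorem Motivic.low (M : Motivic Zs) : ∀ n ≤ 4, finrank ℚ (Zs n) = d n := by
  intro n hn
  haveI := M.finite
  have hpi : Real.pi ≠ 0 := Real.pi_ne_zero
  have h2 : 1 ≤ finrank ℚ (Zs 2) := one_le_of_mem pi_sq_mem (pow_ne_zero _ hpi)
  have h3 : 1 ≤ finrank ℚ (Zs 3) := one_le_of_mem z3_mem z3_pos.ne'
  have h4 : 1 ≤ finrank ℚ (Zs 4) := one_le_of_mem (pi_pow_mem 2) (pow_ne_zero _ hpi)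
  have u2 := M.le 2
  have u3 := M.le 3
  have u4 := M.le 4
  have e2 : d 2 = 1 := by simp [d]
  have e3 : d 3 = 1 := by simp [d]
  have e4 : d 4 = 1 := by simp [d]
  interval_cases n
  · rw [finrank_zero]; simp [d]
  · rw [finrank_one]; simp [d]
  · omega
  · omega
  · omega

end Pool.Agent.Q263.ZO
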