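import Pool.Agent.Q263.ZO.Direct

/-!
# The structure of the spaces of multiple zeta values if their dimensions do not tend to infinity
-/

set_option autoImplicit false

open Module Filter Topology

namespace Pool.Agent.Q263.ZO

open Pool.Agent.H447R2.MZ

/-- multiplication by a nonzero real number -/
noncomputable def mulE (c : ℝ) (hc : c ≠ 0) : ℝ ≃ₗ[ℚ] ℝ :=
  LinearEquiv.restrictScalars ℚ (LinearEquiv.smulOfNeZero ℝ ℝ c hc)

theorem mulE_apply (c : ℝ) (hc : c ≠ 0) (x : ℝ) : mulE c hc x = c * x := rfl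

theorem pi_pow_ne (i : ℕ) : Real.pi ^ (2 * i) ≠ 0 := pow_ne_zero _ Real.pi_ne_zero

theorem zpi_ne (i : ℕ) : z3 * Real.pi ^ (2 * i) ≠ 0 := mul_ne_zero z3_pos.ne' (pi_pow_ne i)

/-- `π^(-2i) Z_{2i}` -/
noncomputable def Ev (i : ℕ) : Submodule ℚ ℝ := (Zs (2 * i)).comap (mulE _ (pi_pow_ne i)).toLinearMap

/-- `π^(-2i) ζ(3)^(-1) Z_{2i+3}` -/
noncomputable def Od (i : ℕ) : Submodule ℚ ℝ := (Zs (2 * i + 3)).comap (mulE _ (zpi_ne i)).toLinearMap

theorem mem_Ev {i : ℕ} {x : ℝ} : x ∈ Ev i ↔ Real.pi ^ (2 * i) * x ∈ Zs (2 * i) := Iff.rfl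

theorem mem_Od {i : ℕ} {x : ℝ} : x ∈ Od i ↔ z3 * Real.pi ^ (2 * i) * x ∈ Zs (2 * i + 3) := Iff.rfl

/-- the equivalence with the space itself -/
noncomputable def evE (i : ℕ) : Ev i ≃ₗ[ℚ] Zs (2 * i) := (mulE _ (pi_pow_ne i)).ofSubmodule' _

noncomputable instance (i : ℕ) : FiniteDimensional ℚ (Ev i) := (evE i).symm.finiteDimensional

theorem finrank_Ev (i : ℕ) : finrank ℚ (Ev i) = finrank ℚ (Zs (2 * i)) := (evE i).finrank_eq

theorem finrank_Od (i : ℕ) : finrank ℚ (Od i) = finrank ℚ (Zs (2 * i + 3)) :=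
  ((mulE _ (zpi_ne i)).ofSubmodule' _).finrank_eq

attribute [irreducible] Ev Od

theorem one_mem_Ev (i : ℕ) : (1 : ℝ) ∈ Ev i := by
  rw [mem_Ev, mul_one]
  exact pi_pow_mem i

theorem Ev_mul {i j : ℕ} {x y : ℝ} (hx : x ∈ Ev i) (hy : y ∈ Ev j) : x * y ∈ Ev (i + j) := by
  rw [mem_Ev] at *
  have h := mul_mem _ _ _ _ hx hy
  have e : Real.pi ^ (2 * i) * x * (Real.pi ^ (2 * j) * y) = Real.pi ^ (2 * (i + j)) * (x * y) := by
    rw [Nat.mul_add, pow_add]; ring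
  rwa [e, ← Nat.mul_add] at h

theorem Ev_mono {i j : ℕ} (h : i ≤ j) : Ev i ≤ Ev j := by
  intro x hx
  have h1 := Ev_mul hx (one_mem_Ev (j - i))
  have e : i + (j - i) = j := by omega
  rw [e] at h1
  simpa only [mul_one] using h1

theorem Od_mul_Ev {i j : ℕ} {x y : ℝ} (hx : x ∈ Od i) (hy : y ∈ Ev j) : x * y ∈ Od (i + j) := by
  rw [mem_Od] at *
  rw [mem_Ev] at hy
  have h := mul_mem _ _ _ _ hx hy
  have e : z3 * Real.pi ^ (2 * i) * x * (Real.pi ^ (2 * j) * y) =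
      z3 * Real.pi ^ (2 * (i + j)) * (x * y) := by
    rw [Nat.mul_add, pow_add]; ring
  rwa [e, show 2 * i + 3 + 2 * j = 2 * (i + j) + 3 by ring] at h

theorem Od_mono {i j : ℕ} (h : i ≤ j) : Od i ≤ Od j := by
  intro x hx
  have h1 := Od_mul_Ev hx (one_mem_Ev (j - i))
  have e : i + (j - i) = j := by omega
  rw [e] at h1
  simpa only [mul_one] using h1

theorem Ev_le_Od (i : ℕ) : Ev i ≤ Od i := by
  intro x hx
  rw [mem_Od]
  rw [mem_Ev] at hx
  have h := mul_mem _ _ _ _ hx z3_mem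
  have e : Real.pi ^ (2 * i) * x * z3 = z3 * Real.pi ^ (2 * i) * x := by ring
  rwa [e] at h

/-- `ζ(3)^2 / π^6` -/
noncomputable def t : ℝ := (z3 / Real.pi ^ 3) ^ 2

theorem t_ne : t ≠ 0 :=
  pow_ne_zero _ (div_ne_zero z3_pos.ne' (pow_ne_zero _ Real.pi_ne_zero))

theorem Od_mul_t {i : ℕ} {x : ℝ} (hx : x ∈ Od i) : x * t ∈ Ev (i + 3) := by
  rw [mem_Od] at hx
  rw [mem_Ev]
  have h := mul_mem _ _ _ _ hx z3_mem
  have hpi : Real.pi ≠ 0 := Real.pi_ne_zero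
  have e : z3 * Real.pi ^ (2 * i) * x * z3 = Real.pi ^ (2 * (i + 3)) * (x * t) := by
    rw [t, Nat.mul_add, pow_add]
    field_simp
  rwa [e, show 2 * i + 3 + 3 = 2 * (i + 3) by ring] at h

theorem shift_le {a k : ℕ} {z : ℝ} (hz : z ∈ Zs a) (h0 : z ≠ 0) :
    finrank ℚ (Zs k) ≤ finrank ℚ (Zs (k + a)) := by
  let f : Zs k →ₗ[ℚ] Zs (k + a) := LinearMap.codRestrict _
    ((LinearMap.mulRight ℚ z).domRestrict (Zs k)) (fun y => mul_mem _ _ _ _ y.2 hz)
  refine LinearMap.finrank_le_finrank_of_injective (f := f) ?_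
  intro x y hxy
  have h : (x : ℝ) * z = y * z := congrArg Subtype.val hxy
  exact Subtype.ext (mul_right_cancel₀ h0 h)

/-- dimensions increase along all steps except `1` -/
theorem mono_all (k N : ℕ) (h : k ≤ N) (h1 : N ≠ k + 1) : finrank ℚ (Zs k) ≤ finrank ℚ (Zs N) := by
  rcases Nat.even_or_odd' (N - k) with ⟨j, hj | hj⟩
  · have := shift_le (k := k) (pi_pow_mem j) (pi_pow_ne j)
    rwa [show k + 2 * j = N by omega] at this
  · obtain ⟨m, rfl⟩ : ∃ m, j = m + 1 := ⟨j - 1, by omega⟩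
    have hm : z3 * Real.pi ^ (2 * m) ∈ Zs (3 + 2 * m) := mul_mem _ _ _ _ z3_mem (pi_pow_mem m)
    have := shift_le (k := k) hm (zpi_ne m)
    rwa [show k + (3 + 2 * m) = N by omega] at this

theorem bounded_of_not_tendsto (h : ¬ Tendsto (fun k => finrank ℚ (Zs k)) atTop atTop) :
    ∃ B, ∀ k, finrank ℚ (Zs k) ≤ B := by
  rw [tendsto_atTop] at h
  push Not at h
  obtain ⟨B, hB⟩ := h
  refine ⟨B, fun k => ?_⟩
  obtain ⟨N, hN, hN2⟩ := (frequently_atTop.1 hB) (k + 2)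
  exact (mono_all k N (by omega) (by omega)).trans hN2.le

theorem exists_stable (h : ∃ B, ∀ k, finrank ℚ (Zs k) ≤ B) : ∃ i₀, ∀ i, i₀ ≤ i → Ev i = Ev i₀ := by
  obtain ⟨B, hB⟩ := h
  have hbd : BddAbove (Set.range fun i => finrank ℚ (Ev i)) := by
    refine ⟨B, ?_⟩
    rintro _ ⟨i, rfl⟩
    change finrank ℚ (Ev i) ≤ B
    rw [finrank_Ev]
    exact hB _
  obtain ⟨i₀, hi₀⟩ := Nat.sSup_mem (Set.range_nonempty _) hbd
  refine ⟨i₀, fun i hi => ?_⟩
  symm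
  refine Submodule.eq_of_le_of_finrank_le (Ev_mono hi) ?_
  have h1 : finrank ℚ (Ev i) ≤ sSup (Set.range fun i => finrank ℚ (Ev i)) :=
    le_csSup hbd ⟨i, rfl⟩
  rw [← hi₀] at h1
  exact h1

theorem inv_mem_of_stable {V : Submodule ℚ ℝ} [FiniteDimensional ℚ V] (h1 : (1 : ℝ) ∈ V)
    (hmul : ∀ x ∈ V, ∀ y ∈ V, x * y ∈ V) {x : ℝ} (hx : x ∈ V) (h0 : x ≠ 0) : x⁻¹ ∈ V := by
  let f : V →ₗ[ℚ] V := LinearMap.codRestrict _ ((LinearMap.mulLeft ℚ x).domRestrict V)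
    (fun y => hmul x hx y y.2)
  have hinj : Function.Injective f := by
    intro a b hab
    have h : x * (a : ℝ) = x * b := congrArg Subtype.val hab
    exact Subtype.ext (mul_left_cancel₀ h0 h)
  obtain ⟨y, hy⟩ := (LinearMap.injective_iff_surjective.1 hinj) ⟨1, h1⟩
  have h2 : x * (y : ℝ) = 1 := congrArg Subtype.val hy
  have h3 : x⁻¹ = (y : ℝ) := inv_eq_of_mul_eq_one_right h2
  rw [h3]
  exact y.2

/-- the local version: equal dimensions in the weights `2i` and `4i` -/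
theorem local_field (i : ℕ) (h : finrank ℚ (Zs (4 * i)) ≤ finrank ℚ (Zs (2 * i))) :
    ∃ K : IntermediateField ℚ ℝ, FiniteDimensional ℚ K ∧ finrank ℚ K = finrank ℚ (Zs (2 * i)) ∧
      (∀ x, x ∈ Zs (2 * i) ↔ ∃ a ∈ K, x = Real.pi ^ (2 * i) * a) ∧
      (∀ x, x ∈ Zs (4 * i) ↔ ∃ a ∈ K, x = Real.pi ^ (4 * i) * a) ∧
      ∀ j, j ≤ 2 * i → ∀ x ∈ Zs (2 * j), x / Real.pi ^ (2 * j) ∈ K := by
  have e4 : 4 * i = 2 * (2 * i) := by ring
  have h1 : Ev i = Ev (2 * i) := by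
    refine Submodule.eq_of_le_of_finrank_le (Ev_mono (by omega)) ?_
    rw [finrank_Ev, finrank_Ev, ← e4]
    exact h
  have hmul : ∀ x ∈ Ev i, ∀ y ∈ Ev i, x * y ∈ Ev i := by
    intro x hx y hy
    have h2 := Ev_mul hx hy
    rwa [← two_mul, ← h1] at h2
  let K : IntermediateField ℚ ℝ :=
    { carrier := Ev i
      mul_mem' := fun {x y} hx hy => hmul x hx y hy
      one_mem' := one_mem_Ev i
      add_mem' := fun {x y} hx hy => Submodule.add_mem _ hx hy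
      zero_mem' := Submodule.zero_mem _
      algebraMap_mem' := fun q => by
        have h1 := Submodule.smul_mem (Ev i) q (one_mem_Ev i)
        rw [Rat.smul_def, mul_one] at h1
        exact h1
      inv_mem' := fun x hx => by
        by_cases h0 : x = 0
        · rw [h0, inv_zero]
          exact Submodule.zero_mem _
        · exact inv_mem_of_stable (one_mem_Ev i) hmul hx h0 }
  have hK : ∀ x, x ∈ K ↔ x ∈ Ev i := fun x => Iff.rfl
  have hfin : FiniteDimensional ℚ K := (inferInstance : FiniteDimensional ℚ (Ev i))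
  have hrank : finrank ℚ K = finrank ℚ (Ev i) := rfl
  have key : ∀ j, Ev j = Ev i → ∀ x, x ∈ Zs (2 * j) ↔ ∃ a ∈ K, x = Real.pi ^ (2 * j) * a := by
    intro j hj x
    constructor
    · intro hx
      refine ⟨x / Real.pi ^ (2 * j), ?_, ?_⟩
      · rw [hK, ← hj, mem_Ev, mul_div_cancel₀ _ (pi_pow_ne j)]
        exact hx
      · rw [mul_div_cancel₀ _ (pi_pow_ne j)]
    · rintro ⟨a, ha, rfl⟩
      rw [hK, ← hj, mem_Ev] at ha
      exact ha
  refine ⟨K, hfin, by rw [hrank, finrank_Ev], key i rfl, ?_, fun j hj x hx => ?_⟩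
  · rw [e4]
    exact key (2 * i) h1.symm
  · rw [hK, h1]
    refine Ev_mono hj ?_
    rw [mem_Ev, mul_div_cancel₀ _ (pi_pow_ne j)]
    exact hx

/-- The spaces of large weight: `Z_{2i} = π^(2i) K` and `Z_{2i+3} = π^(2i) ζ(3) K`. -/
def Shape (K : IntermediateField ℚ ℝ) : Prop :=
  FiniteDimensional ℚ K ∧ (z3 / Real.pi ^ 3) ^ 2 ∈ K ∧
    (∃ i₀, ∀ i, i₀ ≤ i →
      (∀ x, x ∈ Zs (2 * i) ↔ ∃ a ∈ K, x = Real.pi ^ (2 * i) * a) ∧
      (∀ x, x ∈ Zs (2 * i + 3) ↔ ∃ a ∈ K, x = Real.pi ^ (2 * i) * z3 * a) ∧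
      finrank ℚ (Zs (2 * i)) = finrank ℚ K ∧ finrank ℚ (Zs (2 * i + 3)) = finrank ℚ K) ∧
    ∀ k, ∀ z ∈ Zs k, (z / Real.pi ^ k) ^ 2 ∈ K

theorem exists_shape (h : ∃ B, ∀ k, finrank ℚ (Zs k) ≤ B) : ∃ K : IntermediateField ℚ ℝ, Shape K := by
  obtain ⟨i₀, hi₀⟩ := exists_stable h
  have hmul : ∀ x ∈ Ev i₀, ∀ y ∈ Ev i₀, x * y ∈ Ev i₀ := by
    intro x hx y hy
    have h1 := Ev_mul hx hy
    rwa [hi₀ _ (by omega)] at h1
  let K : IntermediateField ℚ ℝ :=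
    { carrier := Ev i₀
      mul_mem' := fun {x y} hx hy => hmul x hx y hy
      one_mem' := one_mem_Ev i₀
      add_mem' := fun {x y} hx hy => Submodule.add_mem _ hx hy
      zero_mem' := Submodule.zero_mem _
      algebraMap_mem' := fun q => by
        have h1 := Submodule.smul_mem (Ev i₀) q (one_mem_Ev i₀)
        rw [Rat.smul_def, mul_one] at h1
        exact h1
      inv_mem' := fun x hx => by
        by_cases h0 : x = 0
        · rw [h0, inv_zero]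
          exact Submodule.zero_mem _
        · exact inv_mem_of_stable (one_mem_Ev i₀) hmul hx h0 }
  have hK : ∀ x, x ∈ K ↔ x ∈ Ev i₀ := fun x => Iff.rfl
  have hE : ∀ i, Ev i ≤ Ev i₀ := by
    intro i
    rcases le_total i₀ i with hi | hi
    · rw [hi₀ i hi]
    · exact Ev_mono hi
  have ht : t ∈ Ev i₀ := by
    have h1 := Od_mul_t (Ev_le_Od i₀ (one_mem_Ev i₀))
    rw [one_mul] at h1
    exact hE _ h1
  have htK : t ∈ K := ht
  have hO : ∀ i, Od i ≤ Ev i₀ := by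
    intro i x hx
    have h1 := hE _ (Od_mul_t hx)
    have h2 : x = x * t * t⁻¹ := by
      rw [mul_assoc, mul_inv_cancel₀ t_ne, mul_one]
    rw [h2]
    exact hmul _ h1 _ (K.inv_mem htK)
  have hO2 : ∀ i, i₀ ≤ i → Od i = Ev i₀ := by
    intro i hi
    refine le_antisymm (hO i) ?_
    rw [← hi₀ i hi]
    exact Ev_le_Od i
  have hfin : FiniteDimensional ℚ K := (inferInstance : FiniteDimensional ℚ (Ev i₀))
  have hrank : finrank ℚ K = finrank ℚ (Ev i₀) := rfl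
  refine ⟨K, hfin, htK, ⟨i₀, fun i hi => ⟨fun x => ?_, fun x => ?_, ?_, ?_⟩⟩, ?_⟩
  · constructor
    · intro hx
      refine ⟨x / Real.pi ^ (2 * i), ?_, ?_⟩
      · rw [hK, ← hi₀ i hi, mem_Ev, mul_div_cancel₀ _ (pi_pow_ne i)]
        exact hx
      · rw [mul_div_cancel₀ _ (pi_pow_ne i)]
    · rintro ⟨a, ha, rfl⟩
      rw [hK, ← hi₀ i hi, mem_Ev] at ha
      exact ha
  · have e : z3 * Real.pi ^ (2 * i) = Real.pi ^ (2 * i) * z3 := mul_comm _ _
    constructor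
    · intro hx
      refine ⟨x / (z3 * Real.pi ^ (2 * i)), ?_, ?_⟩
      · rw [hK, ← hO2 i hi, mem_Od, mul_div_cancel₀ _ (zpi_ne i)]
        exact hx
      · rw [← e, mul_div_cancel₀ _ (zpi_ne i)]
    · rintro ⟨a, ha, rfl⟩
      rw [hK, ← hO2 i hi, mem_Od] at ha
      rwa [← e]
  · rw [hrank, ← finrank_Ev, hi₀ i hi]
  · rw [hrank, ← finrank_Od, hO2 i hi]
  · intro k z hz
    have hpi : Real.pi ≠ 0 := Real.pi_ne_zero
    rcases Nat.even_or_odd' k with ⟨i, rfl | rfl⟩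
    · refine K.pow_mem ?_ 2
      rw [hK]
      refine hE i ?_
      rw [mem_Ev, mul_div_cancel₀ _ (pi_pow_ne i)]
      exact hz
    · -- odd weight: pass to a larger weight
      have h1 : z * z3 / Real.pi ^ (2 * (i + 2)) ∈ K := by
        rw [hK]
        refine hE (i + 2) ?_
        rw [mem_Ev, mul_div_cancel₀ _ (pi_pow_ne (i + 2))]
        have := mul_mem _ _ _ _ hz z3_mem
        rwa [show 2 * i + 1 + 3 = 2 * (i + 2) by ring] at this
      have h2 : (z / Real.pi ^ (2 * i + 1)) ^ 2 = (z * z3 / Real.pi ^ (2 * (i + 2))) ^ 2 * t⁻¹ := by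
        rw [t]
        have hz3 : z3 ≠ 0 := z3_pos.ne'
        field_simp
        ring
      rw [h2]
      exact K.mul_mem (K.pow_mem h1 2) (K.inv_mem htK)

theorem dichotomy : Tendsto (fun k => finrank ℚ (Zs k)) atTop atTop ∨
    ∃ K : IntermediateField ℚ ℝ, Shape K := by
  by_cases h : Tendsto (fun k => finrank ℚ (Zs k)) atTop atTop
  · exact Or.inl h
  · exact Or.inr (exists_shape (bounded_of_not_tendsto h))

theorem Shape.dim {K : IntermediateField ℚ ℝ} (h : Shape K) :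
    ∀ᶠ k in atTop, finrank ℚ (Zs k) = finrank ℚ K := by
  obtain ⟨_, _, ⟨i₀, h1⟩, _⟩ := h
  rw [eventually_atTop]
  refine ⟨2 * i₀ + 3, fun k hk => ?_⟩
  rcases Nat.even_or_odd' k with ⟨i, rfl | rfl⟩
  · exact (h1 i (by omega)).2.2.1
  · have := (h1 (i - 1) (by omega)).2.2.2
    rwa [show 2 * (i - 1) + 3 = 2 * i + 1 by omega] at this

theorem Shape.algebraic {K : IntermediateField ℚ ℝ} (h : Shape K) (k : ℕ) (z : ℝ) (hz : z ∈ Zs k) :
    IsAlgebraic ℚ (z / Real.pi ^ k) := by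
  obtain ⟨h0, _, _, h1⟩ := h
  have h2 : IsAlgebraic ℚ ((z / Real.pi ^ k) ^ 2) := by
    have h3 : IsAlgebraic ℚ (⟨_, h1 k z hz⟩ : K) := Algebra.IsAlgebraic.isAlgebraic _
    exact h3.algebraMap
  exact h2.of_pow (by norm_num)

end Pool.Agent.Q263.ZO
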