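import Pool.Agent.Q263.ZO.Engine
import Pool.Agent.H447R2.MZ.Dich

/-!
# Double shuffle relations and relations of small depth
-/

set_option autoImplicit false

open Module Filter Topology

namespace Pool.Agent.Q263.ZO.DSh

open Pool.Agent.H447R2.MZ

/-- linear combinations of words in `x = false`, `y = true` -/
abbrev V : Type := List Bool →₀ ℚ

/-- the words of the shuffle product of two words, with multiplicities -/
def sh : List Bool → List Bool → List (List Bool)
  | [], v => [v]
  | (a :: u), [] => [a :: u]
  | (a :: u), (b :: v) => (sh u (b :: v)).map (List.cons a) ++ (sh (a :: u) v).map (List.cons b)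
termination_by u v => u.length + v.length

/-- the sum of the words of a list -/
noncomputable def tot (L : List (List Bool)) : V := (L.map fun w => Finsupp.single w (1 : ℚ)).sum

/-- the word `y_{k_1} ⋯ y_{k_t}`, `y_k = x^(k-1) y` -/
def toW : List ℕ → List Bool
  | [] => []
  | (k :: s) => List.replicate (k - 1) false ++ true :: toW s

/-- the index of a word ending in `y` -/
def dec : List Bool → List ℕ
  | [] => []
  | (true :: w) => 1 :: dec w
  | (false :: w) => match dec w with
    | [] => []
    | (k :: s) => (k + 1) :: s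

/-- the regularization: `reg(y^m x w) = (-1)^m x (y^m ⧢ w)`, `reg(y^m) = 0` for `m ≥ 1` -/
noncomputable def regW (w : List Bool) : V :=
  match w.dropWhile id with
  | [] => if w = [] then Finsupp.single [] 1 else 0
  | (_ :: v) => (-1 : ℚ) ^ (w.takeWhile id).length •
      tot ((sh (List.replicate (w.takeWhile id).length true) v).map (List.cons false))

/-- the regularization as a linear map -/
noncomputable def reg : V →ₗ[ℚ] V := Finsupp.linearCombination ℚ regW

/-- the span of the regularized double shuffle elements of weight `p` -/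
noncomputable def DS (p : ℕ) : Submodule ℚ V :=
  Submodule.span ℚ {z | ∃ s t : List ℕ, (∀ a ∈ s, 1 ≤ a) ∧ Adm t ∧ s.sum + t.sum = p ∧
    z = reg (tot (sh (toW s) (toW t)) - tot ((st s t).map toW))}

/-- shuffle product with a word -/
noncomputable def shL (w : List Bool) : V →ₗ[ℚ] V := Finsupp.linearCombination ℚ fun v => tot (sh w v)

/-- the part of weight `p` of the ideal of the shuffle algebra generated by the regularized double
shuffle elements -/
noncomputable def DSI (p : ℕ) : Submodule ℚ V :=
  Submodule.span ℚ {z | ∃ a s t : List ℕ, Adm a ∧ (∀ b ∈ s, 1 ≤ b) ∧ Adm t ∧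
    a.sum + (s.sum + t.sum) = p ∧
    z = shL (toW a) (reg (tot (sh (toW s) (toW t)) - tot ((st s t).map toW)))}

/-- the combinations of the words of admissible indices of weight `p` and depth at most `d` -/
noncomputable def H0 (p d : ℕ) : Submodule ℚ V :=
  Submodule.span ℚ {z | ∃ s : List ℕ, Adm s ∧ s.sum = p ∧ s.length ≤ d ∧ z = Finsupp.single (toW s) 1}

/-- the multiple zeta value -/
noncomputable def zeta (s : List ℕ) : ℝ :=
  ∑' m : {m : Fin s.length → ℕ // StrictAnti m ∧ ∀ i, 1 ≤ m i},
    ∏ i, (((m.1 i : ℕ) : ℝ) ^ (s.get i))⁻¹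

/-- the map `Z` of the problem -/
noncomputable def ev : V →ₗ[ℚ] ℝ := Finsupp.linearCombination ℚ fun w => zeta (dec w)

/-! ### Words and indices -/

theorem dec_replicate (n k : ℕ) (s : List ℕ) (w : List Bool) (h : dec w = k :: s) :
    dec (List.replicate n false ++ w) = (k + n) :: s := by
  induction n with
  | zero => simpa using h
  | succ n ih =>
    rw [List.replicate_succ, List.cons_append, dec, ih]
    simp only [List.cons.injEq, and_true]
    omega

theorem dec_toW (s : List ℕ) (hs : ∀ a ∈ s, 1 ≤ a) : dec (toW s) = s := by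
  induction s with
  | nil => rfl
  | cons k s ih =>
    have h1 := ih fun a ha => hs a (List.mem_cons_of_mem _ ha)
    have hk := hs k (by simp)
    rw [toW, dec_replicate (k - 1) 1 s (true :: toW s) (by rw [dec, h1])]
    congr 1
    omega

/-- words which are empty or end in `y` -/
def En (w : List Bool) : Prop := w.getLast? ≠ some false

theorem En_cons {a : Bool} {w : List Bool} (h : En (a :: w)) : En w := by
  unfold En at *
  rcases w with _ | ⟨b, w⟩
  · simp
  · rwa [List.getLast?_cons_cons] at h

theorem En_cons_iff {a : Bool} {w : List Bool} (hw : w ≠ []) : En (a :: w) ↔ En w := by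
  unfold En
  rcases w with _ | ⟨b, w⟩
  · exact absurd rfl hw
  · rw [List.getLast?_cons_cons]

theorem En_nil : En [] := by simp [En]

theorem exists_index (w : List Bool) (hw : En w) : ∃ s : List ℕ, (∀ a ∈ s, 1 ≤ a) ∧ toW s = w := by
  induction w with
  | nil => exact ⟨[], by simp, rfl⟩
  | cons a w ih =>
    obtain ⟨s, hs, hsw⟩ := ih (En_cons hw)
    cases a
    · rcases s with _ | ⟨k, s⟩
      · rw [toW] at hsw
        subst hsw
        exact absurd rfl hw
      · refine ⟨(k + 1) :: s, ?_, ?_⟩
        · intro b hb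
          rcases List.mem_cons.1 hb with rfl | hb
          · omega
          · exact hs b (List.mem_cons_of_mem _ hb)
        · have hk := hs k (by simp)
          rw [toW] at hsw ⊢
          rw [← hsw, show k + 1 - 1 = (k - 1) + 1 by omega, List.replicate_succ, List.cons_append]
    · refine ⟨1 :: s, ?_, ?_⟩
      · intro b hb
        rcases List.mem_cons.1 hb with rfl | hb
        · exact le_rfl
        · exact hs b hb
      · rw [toW, hsw]
        rfl

theorem length_toW (s : List ℕ) (hs : ∀ a ∈ s, 1 ≤ a) : (toW s).length = s.sum := by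
  induction s with
  | nil => rfl
  | cons k s ih =>
    have h1 := ih fun a ha => hs a (List.mem_cons_of_mem _ ha)
    have hk := hs k (by simp)
    rw [toW, List.length_append, List.length_replicate, List.length_cons, List.sum_cons, h1]
    omega

theorem count_toW (s : List ℕ) : (toW s).count true = s.length := by
  induction s with
  | nil => rfl
  | cons k s ih =>
    rw [toW, List.count_append, List.count_cons, ih, List.count_replicate]
    simp

theorem En_append {u w : List Bool} (hw : En w) (hne : w ≠ []) : En (u ++ w) := by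
  induction u with
  | nil => exact hw
  | cons a u ih =>
    rw [List.cons_append, En_cons_iff]
    · exact ih
    · intro h
      exact hne (List.append_eq_nil_iff.1 h).2

theorem En_toW (s : List ℕ) : En (toW s) := by
  induction s with
  | nil => exact En_nil
  | cons k s ih =>
    rw [toW]
    refine En_append ?_ (List.cons_ne_nil _ _)
    by_cases h : toW s = []
    · rw [h]
      simp [En]
    · rw [En_cons_iff h]
      exact ih

theorem sh_ne_nil {u v w : List Bool} (h : w ∈ sh u v) (huv : u ≠ [] ∨ v ≠ []) : w ≠ [] := by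
  induction u, v using sh.induct generalizing w with
  | case1 v =>
    rw [sh, List.mem_singleton] at h
    subst h
    rcases huv with h | h
    · exact absurd rfl h
    · exact h
  | case2 a u =>
    rw [sh, List.mem_singleton] at h
    subst h
    exact List.cons_ne_nil _ _
  | case3 a u b v ih1 ih2 =>
    rw [sh, List.mem_append, List.mem_map, List.mem_map] at h
    rcases h with ⟨w', _, rfl⟩ | ⟨w', _, rfl⟩ <;> exact List.cons_ne_nil _ _

theorem sh_En {u v w : List Bool} (hu : En u) (hv : En v) (h : w ∈ sh u v) : En w := by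
  induction u, v using sh.induct generalizing w with
  | case1 v =>
    rw [sh, List.mem_singleton] at h
    subst h
    exact hv
  | case2 a u =>
    rw [sh, List.mem_singleton] at h
    subst h
    exact hu
  | case3 a u b v ih1 ih2 =>
    rw [sh, List.mem_append, List.mem_map, List.mem_map] at h
    rcases h with ⟨w', h', rfl⟩ | ⟨w', h', rfl⟩
    · rw [En_cons_iff (sh_ne_nil h' (Or.inr (List.cons_ne_nil _ _)))]
      exact ih1 (En_cons hu) hv h'
    · rw [En_cons_iff (sh_ne_nil h' (Or.inl (List.cons_ne_nil _ _)))]
      exact ih2 hu (En_cons hv) h'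

theorem sh_length {u v w : List Bool} (h : w ∈ sh u v) :
    w.length = u.length + v.length ∧ w.count true = u.count true + v.count true := by
  induction u, v using sh.induct generalizing w with
  | case1 v =>
    rw [sh, List.mem_singleton] at h
    subst h
    simp
  | case2 a u =>
    rw [sh, List.mem_singleton] at h
    subst h
    simp
  | case3 a u b v ih1 ih2 =>
    rw [sh, List.mem_append, List.mem_map, List.mem_map] at h
    rcases h with ⟨w', h', rfl⟩ | ⟨w', h', rfl⟩
    · obtain ⟨h1, h2⟩ := ih1 h'
      simp only [List.length_cons, List.count_cons] at h1 h2 ⊢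
      constructor <;> omega
    · obtain ⟨h1, h2⟩ := ih2 h'
      simp only [List.length_cons, List.count_cons] at h1 h2 ⊢
      constructor <;> omega

/-- words which are empty or begin with `x` -/
def St (w : List Bool) : Prop := w.head? ≠ some true

theorem St_toW (s : List ℕ) (hs : Adm s) : St (toW s) := by
  rcases s with _ | ⟨k, s⟩
  · simp [St, toW]
  · have hk := hs.2 k s rfl
    rw [toW, show k - 1 = (k - 2) + 1 by omega, List.replicate_succ, List.cons_append]
    simp [St]

theorem sh_St {u v w : List Bool} (hu : St u) (hv : St v) (h : w ∈ sh u v) : St w := by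
  rcases u with _ | ⟨a, u⟩
  · rw [sh, List.mem_singleton] at h
    subst h
    exact hv
  · rcases v with _ | ⟨b, v⟩
    · rw [sh, List.mem_singleton] at h
      subst h
      exact hu
    · rw [sh, List.mem_append, List.mem_map, List.mem_map] at h
      rcases h with ⟨w', _, rfl⟩ | ⟨w', _, rfl⟩
      · simpa [St] using hu
      · simpa [St] using hv

theorem sh_index {s t : List ℕ} (hs : Adm s) (ht : Adm t) {w : List Bool}
    (h : w ∈ sh (toW s) (toW t)) : ∃ r : List ℕ, Adm r ∧ r.sum = s.sum + t.sum ∧
      r.length = s.length + t.length ∧ toW r = w := by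
  obtain ⟨r, hr, hrw⟩ := exists_index w (sh_En (En_toW s) (En_toW t) h)
  obtain ⟨h1, h2⟩ := sh_length h
  have h3 := sh_St (St_toW s hs) (St_toW t ht) h
  refine ⟨r, ⟨hr, ?_⟩, ?_, ?_, hrw⟩
  · rintro a r' rfl
    have ha := hr a (by simp)
    by_contra hlt
    have ha1 : a = 1 := by omega
    subst ha1
    rw [← hrw] at h3
    exact h3 (by simp [toW])
  · rw [← length_toW r hr, hrw, h1, length_toW s hs.1, length_toW t ht.1]
  · rw [← count_toW r, hrw, h2, count_toW, count_toW]

theorem tot_mem {p d : ℕ} {L : List (List Bool)}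
    (h : ∀ w ∈ L, ∃ r : List ℕ, Adm r ∧ r.sum = p ∧ r.length ≤ d ∧ toW r = w) : tot L ∈ H0 p d := by
  unfold tot
  refine list_sum_mem fun z hz => ?_
  rw [List.mem_map] at hz
  obtain ⟨w, hw, rfl⟩ := hz
  obtain ⟨r, h1, h2, h3, rfl⟩ := h w hw
  exact Submodule.subset_span ⟨r, h1, h2, h3, rfl⟩

/-! ### The algebra of formal multiple zeta values -/

/-- The known facts on the algebra `F` of formal multiple zeta values, the quotient of the shuffle
algebra of the admissible words by the ideal generated by the regularized double shuffle elements: it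
is an integral domain
(Racinet), and the real multiple zeta values define a homomorphism `F → ℝ` (Ihara, Kaneko, Zagier). -/
structure Formal where
  /-- the algebra of formal multiple zeta values -/
  F : Type
  [ring : CommRing F]
  [dom : IsDomain F]
  [alg : Algebra ℚ F]
  /-- the class of a combination of words -/
  cl : V →ₗ[ℚ] F
  ker : ∀ p, ∀ x ∈ H0 p p, cl x = 0 ↔ x ∈ DSI p
  mul : ∀ s t, Adm s → Adm t → cl (Finsupp.single (toW s) 1) * cl (Finsupp.single (toW t) 1) =
    cl (tot (sh (toW s) (toW t)))
  /-- the real values -/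
  real : F →ₐ[ℚ] ℝ
  real_cl : ∀ s, Adm s → real (cl (Finsupp.single (toW s) 1)) = zeta s

attribute [instance] Formal.ring Formal.dom Formal.alg

/-- all relations of weight `p` between multiple zeta values of depth at most `d` are combinations of
regularized double shuffle relations -/
def Suff (p d : ℕ) : Prop := ∀ x ∈ H0 p d, ev x = 0 → x ∈ DS p

/-- all relations of weight `p` between multiple zeta values of depth at most `d` are in the ideal
generated by the regularized double shuffle relations -/
def SuffI (p d : ℕ) : Prop := ∀ x ∈ H0 p d, ev x = 0 → x ∈ DSI p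

theorem Adm_nil : Adm [] := ⟨by simp, by simp⟩

theorem shL_nil (x : V) : shL [] x = x := by
  have h : shL [] = LinearMap.id := by
    refine Finsupp.lhom_ext fun w c => ?_
    rw [shL, Finsupp.linearCombination_single, LinearMap.id_apply, sh]
    simp [tot]
  rw [h, LinearMap.id_apply]

theorem DS_le (p : ℕ) : DS p ≤ DSI p := by
  refine Submodule.span_mono ?_
  rintro z ⟨s, t, h1, h2, h3, rfl⟩
  exact ⟨[], s, t, Adm_nil, h1, h2, by simpa using h3, (shL_nil _).symm⟩

theorem Suff.toI {p d : ℕ} (h : Suff p d) : SuffI p d := fun x hx hx0 => DS_le p (h x hx hx0)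

theorem H0_finite (p d : ℕ) : FiniteDimensional ℚ (H0 p d) := by
  refine FiniteDimensional.span_of_finite ℚ ?_
  refine (Set.finite_range (fun c : Composition p =>
    (Finsupp.single (toW c.blocks) (1 : ℚ) : V))).subset ?_
  rintro x ⟨s, hs, hn, _, rfl⟩
  exact ⟨⟨s, fun {i} hi => hs.1 i hi, hn⟩, rfl⟩

theorem H0_mono (p : ℕ) {d e : ℕ} (h : d ≤ e) : H0 p d ≤ H0 p e := by
  refine Submodule.span_mono ?_
  rintro x ⟨s, h1, h2, h3, rfl⟩
  exact ⟨s, h1, h2, h3.trans h, rfl⟩

theorem length_le_sum (s : List ℕ) (hs : ∀ a ∈ s, 1 ≤ a) : s.length ≤ s.sum := by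
  induction s with
  | nil => simp
  | cons a s ih =>
    have h1 := ih fun b hb => hs b (List.mem_cons_of_mem _ hb)
    have h2 := hs a (by simp)
    simp only [List.length_cons, List.sum_cons]
    omega

theorem H0_top (p d : ℕ) : H0 p d ≤ H0 p p := by
  refine Submodule.span_mono ?_
  rintro x ⟨s, h1, h2, _, rfl⟩
  exact ⟨s, h1, h2, h2 ▸ length_le_sum s h1.1, rfl⟩

theorem zeta_eq (s : List ℕ) (hs : Adm s) : zeta s = val s := by
  have hk : Adm (List.ofFn s.get) := by rw [List.ofFn_get]; exact hs
  have := (hasSum_val s.length s.get hk).tsum_eq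
  rw [List.ofFn_get] at this
  exact this

namespace Formal

variable (M : Formal)

include M

theorem real_eq {p d : ℕ} {x : V} (hx : x ∈ H0 p d) : M.real (M.cl x) = ev x := by
  induction hx using Submodule.span_induction with
  | mem x hx =>
    obtain ⟨s, h1, _, _, rfl⟩ := hx
    rw [M.real_cl s h1, ev, Finsupp.linearCombination_single, one_smul, dec_toW s h1.1]
  | zero => simp
  | add x y _ _ hx hy => rw [map_add, map_add, map_add, hx, hy]
  | smul c x _ hx => rw [map_smul, map_smul, map_smul, hx]

theorem map_mul_le (p d q e : ℕ) :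
    (H0 p d).map M.cl * (H0 q e).map M.cl ≤ (H0 (p + q) (d + e)).map M.cl := by
  unfold H0
  rw [Submodule.map_span, Submodule.map_span, Submodule.span_mul_span, Submodule.span_le]
  rintro _ ⟨_, ⟨_, ⟨s, h1, h2, h3, rfl⟩, rfl⟩, _, ⟨_, ⟨t, h4, h5, h6, rfl⟩, rfl⟩, rfl⟩
  simp only [SetLike.mem_coe]
  rw [M.mul s t h1 h4]
  refine Submodule.mem_map_of_mem (tot_mem fun w hw => ?_)
  obtain ⟨r, hr1, hr2, hr3, hr4⟩ := sh_index h1 h4 hw
  exact ⟨r, hr1, by omega, by omega, hr4⟩

theorem map_ev (p d : ℕ) : ((H0 p d).map M.cl).map M.real.toLinearMap = (H0 p d).map ev := by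
  ext y
  constructor
  · rintro ⟨_, ⟨x, hx, rfl⟩, rfl⟩
    exact ⟨x, hx, (M.real_eq hx).symm⟩
  · rintro ⟨x, hx, rfl⟩
    exact ⟨_, ⟨x, hx, rfl⟩, M.real_eq hx⟩

/-- One further relation has consequences in all larger weights and depths. -/
theorem step (n d N e : ℕ) (h : ¬ SuffI n d) :
    finrank ℚ ((H0 (n + N) (d + e)).map ev) + finrank ℚ ((H0 N e).map M.cl) ≤
      finrank ℚ ((H0 (n + N) (d + e)).map M.cl) := by
  unfold SuffI at h
  push Not at h
  obtain ⟨x, hx, hx0, hxD⟩ := h
  have h1 : M.cl x ≠ 0 := fun h0 => hxD ((M.ker n x (H0_top n d hx)).1 h0)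
  have h2 : M.real (M.cl x) = 0 := by rw [M.real_eq hx, hx0]
  haveI := H0_finite (n + N) (d + e)
  have h3 := drop M.real.toLinearMap ((H0 N e).map M.cl) ((H0 (n + N) (d + e)).map M.cl) (M.cl x) h1
    (fun y hy => M.map_mul_le n d N e (Submodule.mul_mem_mul (Submodule.mem_map_of_mem hx) hy))
    (fun y _ => by
      have h4 : M.real (M.cl x * y) = 0 := by rw [map_mul, h2, zero_mul]
      exact h4)
  rwa [M.map_ev] at h3

theorem down (P D p d : ℕ) (h : SuffI P D) (hp : p + 2 ≤ P) (hd : d + 1 ≤ D) : SuffI p d := by
  intro x hx hx0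
  by_contra hxD
  have h1 : M.cl x ≠ 0 := fun h0 => hxD ((M.ker p x (H0_top p d hx)).1 h0)
  -- multiply by `ζ(P - p)`
  have hAdm : Adm [P - p] := ⟨by simp; omega, by
    intro b t hb
    simp only [List.cons.injEq] at hb
    omega⟩
  have h2 : M.cl (Finsupp.single (toW [P - p]) 1) ≠ 0 := by
    intro h0
    have h3 := M.real_cl _ hAdm
    rw [h0, map_zero] at h3
    have h4 : val [P - p] = ∑' n : ℕ, (1 : ℝ) / ((n : ℝ) + 1) ^ (P - p) :=
      (val_single (P - p) (by omega)).tsum_eq.symm
    rw [zeta_eq _ hAdm, h4] at h3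
    exact (zeta_pos (P - p) (by omega)).ne h3
  have hy : Finsupp.single (toW [P - p]) (1 : ℚ) ∈ H0 (P - p) 1 :=
    Submodule.subset_span ⟨[P - p], hAdm, by simp, by simp, rfl⟩
  obtain ⟨z, hz, hzxy⟩ := M.map_mul_le p d (P - p) 1
    (Submodule.mul_mem_mul (Submodule.mem_map_of_mem hx) (Submodule.mem_map_of_mem hy))
  rw [Nat.add_sub_cancel' (by omega : p ≤ P)] at hz
  have h5 : ev z = 0 := by
    rw [← M.real_eq hz, hzxy, map_mul, M.real_eq hx, hx0, zero_mul]
  have h6 := h z (H0_mono P (by omega) hz) h5
  have h7 : M.cl z = 0 := (M.ker P z (H0_top P _ hz)).2 h6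
  rw [hzxy] at h7
  rcases mul_eq_zero.1 h7 with h8 | h8
  · exact h1 h8
  · exact h2 h8

end Formal

theorem SuffI.mono {p d e : ℕ} (h : SuffI p e) (hde : H0 p d ≤ H0 p e) : SuffI p d :=
  fun x hx hx0 => h x (hde hx) hx0

theorem Formal.iff_function (M : Formal) (g : ℕ → ℕ) (hg : Tendsto g atTop atTop) :
    (∀ p, SuffI p p) ↔ ∃ᶠ P in atTop, SuffI P (g P) := by
  constructor
  · intro h
    exact Frequently.of_forall fun P => (h P).mono (H0_top P (g P))
  · intro h p
    have h1 : ∀ᶠ P in atTop, p + 2 ≤ P ∧ p + 1 ≤ g P :=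
      (eventually_ge_atTop (p + 2)).and (hg.eventually_ge_atTop (p + 1))
    obtain ⟨P, hP, hP2⟩ := (h.and_eventually h1).exists
    exact M.down P (g P) p p hP hP2.1 hP2.2

end Pool.Agent.Q263.ZO.DSh
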