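import Pool.Agent.Q263.ZO.Engine
import Pool.Agent.H447R2.MZ.Dich

/-!
# Relations between multiple zeta values of different weights, and dimensions of sums
-/

set_option autoImplicit false

open Module Filter Polynomial

namespace Pool.Agent.Q263.ZO

open Pool.Agent.H447R2.MZ

theorem finite_set (n : ℕ) : {x : ℝ | ∃ s : List ℕ, Adm s ∧ s.sum = n ∧ x = val s}.Finite := by
  refine (Set.finite_range (fun c : Composition n => val c.blocks)).subset ?_
  rintro x ⟨s, hs, hn, rfl⟩
  exact ⟨⟨s, fun {i} hi => hs.1 i hi, hn⟩, rfl⟩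

instance finite_Zs (n : ℕ) : FiniteDimensional ℚ (Zs n) := by
  rw [Zs_eq]
  exact FiniteDimensional.span_of_finite ℚ (finite_set n)

theorem finrank_le_pow (n : ℕ) : finrank ℚ (Zs n) ≤ 2 ^ n := by
  classical
  have h1 : Zs n ≤ Submodule.span ℚ (Set.range (fun c : Composition n => val c.blocks)) := by
    rw [Zs_eq]
    refine Submodule.span_mono ?_
    rintro x ⟨s, hs, hn, rfl⟩
    exact ⟨⟨s, fun {i} hi => hs.1 i hi, hn⟩, rfl⟩
  have h2 : finrank ℚ (Submodule.span ℚ (Set.range (fun c : Composition n => val c.blocks))) ≤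
      Fintype.card (Composition n) := finrank_range_le_card _
  haveI : FiniteDimensional ℚ (Submodule.span ℚ (Set.range (fun c : Composition n => val c.blocks))) :=
    FiniteDimensional.span_of_finite ℚ (Set.finite_range _)
  have h3 := Submodule.finrank_mono h1
  rw [composition_card] at h2
  calc finrank ℚ (Zs n) ≤ 2 ^ (n - 1) := h3.trans h2
    _ ≤ 2 ^ n := Nat.pow_le_pow_right (by norm_num) (by omega)

/-- polynomials `∑ z_k t^k`, `z_k ∈ Z_k`, `s ≤ k ≤ N` -/
def P (s N : ℕ) : Submodule ℚ ℝ[X] where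
  carrier := {p | (∀ k, p.coeff k ∈ Zs k) ∧ ∀ k, k < s ∨ N < k → p.coeff k = 0}
  add_mem' := by
    rintro p q ⟨hp, hp'⟩ ⟨hq, hq'⟩
    refine ⟨fun k => ?_, fun k hk => ?_⟩
    · rw [coeff_add]; exact Submodule.add_mem _ (hp k) (hq k)
    · rw [coeff_add, hp' k hk, hq' k hk, add_zero]
  zero_mem' := ⟨fun k => by simp, fun k _ => by simp⟩
  smul_mem' := by
    rintro c p ⟨hp, hp'⟩
    refine ⟨fun k => ?_, fun k hk => ?_⟩
    · rw [coeff_smul]; exact Submodule.smul_mem _ _ (hp k)
    · rw [coeff_smul, hp' k hk, smul_zero]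

theorem mem_P {s N : ℕ} {p : ℝ[X]} :
    p ∈ P s N ↔ (∀ k, p.coeff k ∈ Zs k) ∧ ∀ k, k < s ∨ N < k → p.coeff k = 0 := Iff.rfl

/-- the polynomial with given coefficients -/
noncomputable def mk (s N : ℕ) (z : (k : Finset.Icc s N) → Zs k) : ℝ[X] :=
  ∑ k : Finset.Icc s N, monomial (k : ℕ) (z k : ℝ)

theorem coeff_mk (s N : ℕ) (z : (k : Finset.Icc s N) → Zs k) (j : ℕ) :
    (mk s N z).coeff j = if h : j ∈ Finset.Icc s N then (z ⟨j, h⟩ : ℝ) else 0 := by
  classical
  rw [mk, finsetSum_coeff]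
  simp only [coeff_monomial]
  split_ifs with h
  · rw [Finset.sum_eq_single (⟨j, h⟩ : Finset.Icc s N)]
    · simp
    · intro b _ hb
      rw [if_neg]
      intro hbj
      exact hb (Subtype.ext hbj)
    · intro h'
      exact absurd (Finset.mem_univ _) h'
  · refine Finset.sum_eq_zero fun b _ => ?_
    rw [if_neg]
    intro hbj
    exact h (hbj ▸ b.2)

/-- coefficients -/
noncomputable def equiv (s N : ℕ) : P s N ≃ₗ[ℚ] ((k : Finset.Icc s N) → Zs k) where
  toFun p := fun k => ⟨(p : ℝ[X]).coeff k, p.2.1 k⟩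
  map_add' p q := by
    funext k
    apply Subtype.ext
    simp
  map_smul' c p := by
    funext k
    apply Subtype.ext
    simp
  invFun z := ⟨mk s N z, by
    refine ⟨fun k => ?_, fun k hk => ?_⟩
    · rw [coeff_mk]
      split_ifs with h
      · exact (z ⟨k, h⟩).2
      · exact Submodule.zero_mem _
    · rw [coeff_mk, dif_neg]
      rw [Finset.mem_Icc]
      omega⟩
  left_inv p := by
    apply Subtype.ext
    ext j
    change (mk s N _).coeff j = _
    rw [coeff_mk]
    split_ifs with h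
    · rfl
    · rw [Finset.mem_Icc] at h
      rw [p.2.2 j (by omega)]
  right_inv z := by
    funext k
    apply Subtype.ext
    change (mk s N z).coeff k = _
    rw [coeff_mk, dif_pos k.2]

instance (s N : ℕ) : FiniteDimensional ℚ (P s N) := (equiv s N).symm.finiteDimensional

theorem finrank_P (s N : ℕ) : finrank ℚ (P s N) = ∑ k ∈ Finset.Icc s N, finrank ℚ (Zs k) := by
  rw [(equiv s N).finrank_eq, Module.finrank_pi_fintype ℚ]
  exact Finset.sum_coe_sort (Finset.Icc s N) (fun k => finrank ℚ (Zs k))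

/-- `t ↦ 1` -/
noncomputable def ev : ℝ[X] →ₗ[ℚ] ℝ := (leval (1 : ℝ)).restrictScalars ℚ

theorem ev_apply (p : ℝ[X]) : ev p = p.eval 1 := rfl

theorem ev_mul (p q : ℝ[X]) : ev (p * q) = ev p * ev q := by
  rw [ev_apply, ev_apply, ev_apply, eval_mul]

/-- the sum of the weight spaces of weights `s, …, N` -/
noncomputable def S (s N : ℕ) : Submodule ℚ ℝ := ⨆ k ∈ Finset.Icc s N, Zs k

theorem map_P (s N : ℕ) : (P s N).map ev = S s N := by
  apply le_antisymm
  · rintro _ ⟨p, hp, rfl⟩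
    rw [ev_apply, eval_eq_sum, Polynomial.sum]
    refine Submodule.sum_mem _ fun k hk => ?_
    rw [one_pow, mul_one]
    have hk' : k ∈ Finset.Icc s N := by
      rw [Finset.mem_Icc]
      by_contra hlt
      exact (mem_support_iff.1 hk) (hp.2 k (by omega))
    exact (le_iSup₂_of_le (f := fun k (_ : k ∈ Finset.Icc s N) => Zs k) k hk' le_rfl) (hp.1 k)
  · refine iSup₂_le fun k hk x hx => ?_
    refine ⟨monomial k x, ⟨fun j => ?_, fun j hj => ?_⟩, ?_⟩
    · rw [coeff_monomial]
      split_ifs with h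
      · rw [← h]; exact hx
      · exact Submodule.zero_mem _
    · rw [coeff_monomial, if_neg]
      rw [Finset.mem_Icc] at hk
      omega
    · rw [ev_apply, eval_monomial, one_pow, mul_one]

theorem mul_mem_P {a b s N : ℕ} {p q : ℝ[X]} (hp : p ∈ P a b) (hq : q ∈ P s N) :
    p * q ∈ P (a + s) (b + N) := by
  refine ⟨fun k => ?_, fun k hk => ?_⟩
  · rw [coeff_mul]
    refine Submodule.sum_mem _ fun x hx => ?_
    have := mul_mem _ _ _ _ (hp.1 x.1) (hq.1 x.2)
    rwa [Finset.HasAntidiagonal.mem_antidiagonal.1 hx] at this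
  · rw [coeff_mul]
    refine Finset.sum_eq_zero fun x hx => ?_
    have hx' := Finset.HasAntidiagonal.mem_antidiagonal.1 hx
    by_cases h1 : x.1 < a ∨ b < x.1
    · rw [hp.2 _ h1, zero_mul]
    · rw [hq.2 _ (by omega), mul_zero]

/-- a relation with weights between `a` and `b` has consequences in all windows -/
theorem window (f : ℝ[X]) (a b : ℕ) (hf : f ∈ P a b) (h0 : f ≠ 0) (hev : f.eval 1 = 0) (s N : ℕ) :
    finrank ℚ (S (a + s) (b + N)) + ∑ k ∈ Finset.Icc s N, finrank ℚ (Zs k) ≤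
      ∑ k ∈ Finset.Icc (a + s) (b + N), finrank ℚ (Zs k) := by
  have h := drop ev (P s N) (P (a + s) (b + N)) f h0 (fun y hy => mul_mem_P hf hy)
    (fun y _ => by rw [ev_mul, ev_apply, hev, zero_mul])
  rwa [map_P, finrank_P, finrank_P] at h

/-- the polynomial of a relation -/
theorem exists_poly (a b : ℕ) (z : ℕ → ℝ) (hz : ∀ j, a ≤ j → j ≤ b → z j ∈ Zs j)
    (hs : ∑ j ∈ Finset.Icc a b, z j = 0) (hne : ∃ j, a ≤ j ∧ j ≤ b ∧ z j ≠ 0) :
    ∃ f ∈ P a b, f ≠ 0 ∧ f.eval 1 = 0 := by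
  classical
  have hc : ∀ j, (∑ k ∈ Finset.Icc a b, monomial k (z k)).coeff j =
      if j ∈ Finset.Icc a b then z j else 0 := by
    intro j
    rw [finsetSum_coeff]
    simp only [coeff_monomial]
    rw [Finset.sum_ite_eq']
  refine ⟨∑ k ∈ Finset.Icc a b, monomial k (z k), ⟨fun k => ?_, fun k hk => ?_⟩, ?_, ?_⟩
  · rw [hc]
    split_ifs with h
    · rw [Finset.mem_Icc] at h
      exact hz k h.1 h.2
    · exact Submodule.zero_mem _
  · rw [hc, if_neg]
    rw [Finset.mem_Icc]
    omega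
  · obtain ⟨j, hj1, hj2, hj⟩ := hne
    intro h
    apply hj
    have h1 := hc j
    rw [h, coeff_zero, if_pos (Finset.mem_Icc.2 ⟨hj1, hj2⟩)] at h1
    exact h1.symm
  · rw [eval_finsetSum]
    rw [← hs]
    refine Finset.sum_congr rfl fun k _ => ?_
    rw [eval_monomial, one_pow, mul_one]

end Pool.Agent.Q263.ZO
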