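import Pool.Agent.Q263.ZO.Direct
import Pool.Agent.Results.MP_2000e9_nt.SumDimension

/-!
# Directness of the sum of the weight spaces and dimensions
-/

set_option autoImplicit false

open Module Filter Polynomial Topology

namespace Pool.Agent.Q263.ZO

open Pool.Agent.H447R2.MZ

/-- a nontrivial relation between elements of the spaces of weights `a, …, b` -/
def HasRel (a b : ℕ) : Prop :=
  ∃ z : ℕ → ℝ, (∀ j, a ≤ j → j ≤ b → z j ∈ Zs j) ∧ ∑ j ∈ Finset.Icc a b, z j = 0 ∧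
    ∃ j, a ≤ j ∧ j ≤ b ∧ z j ≠ 0

theorem HasRel.window {a b : ℕ} (h : HasRel a b) (s N : ℕ) :
    finrank ℚ (S (a + s) (b + N)) + ∑ k ∈ Finset.Icc s N, finrank ℚ (Zs k) ≤
      ∑ k ∈ Finset.Icc (a + s) (b + N), finrank ℚ (Zs k) := by
  obtain ⟨z, hz, hs, hne⟩ := h
  obtain ⟨f, hf, h0, hev⟩ := exists_poly a b z hz hs hne
  exact Pool.Agent.Q263.ZO.window f a b hf h0 hev s N

theorem finrank_S_le (s N : ℕ) : finrank ℚ (S s N) ≤ ∑ k ∈ Finset.Icc s N, finrank ℚ (Zs k) := by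
  rw [← map_P, ← finrank_P]
  exact map_le _ _

theorem rel_of_lt (s N : ℕ) (h : finrank ℚ (S s N) < ∑ k ∈ Finset.Icc s N, finrank ℚ (Zs k)) :
    HasRel s N := by
  rw [← map_P, ← finrank_P] at h
  obtain ⟨f, hf, hf0, hev⟩ := exists_ker _ _ h
  refine ⟨fun j => f.coeff j, fun j _ _ => hf.1 j, ?_, ?_⟩
  · rw [ev_apply, eval_eq_sum, Polynomial.sum] at hev
    simp only [one_pow, mul_one] at hev
    rw [← hev]
    symm
    refine Finset.sum_subset (fun k hk => ?_) (fun k _ hk => by simpa using hk)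
    rw [Finset.mem_Icc]
    by_contra hlt
    exact (mem_support_iff.1 hk) (hf.2 k (by omega))
  · by_contra hc
    push Not at hc
    apply hf0
    ext j
    rw [coeff_zero]
    by_cases hj : s ≤ j ∧ j ≤ N
    · exact hc j hj.1 hj.2
    · exact hf.2 j (by omega)

theorem finrank_S_eq (s N : ℕ) (h : ¬ HasRel s N) :
    finrank ℚ (S s N) = ∑ k ∈ Finset.Icc s N, finrank ℚ (Zs k) := by
  by_contra hne
  exact h (rel_of_lt s N (lt_of_le_of_ne (finrank_S_le s N) hne))

theorem HasRel.zero {b : ℕ} (h : HasRel 0 b) (N : ℕ) (hN : b ≤ N) :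
    finrank ℚ (S 0 N) + ∑ k ∈ Finset.Icc 0 (N - b), finrank ℚ (Zs k) ≤
      ∑ k ∈ Finset.Icc 0 N, finrank ℚ (Zs k) := by
  have := h.window 0 (N - b)
  rwa [show 0 + 0 = 0 by rfl, Nat.add_sub_cancel' hN] at this

theorem sum_split (b N : ℕ) (hb : 1 ≤ b) (hN : b ≤ N) (h : ℕ → ℕ) :
    ∑ k ∈ Finset.Icc 0 N, h k = ∑ k ∈ Finset.Icc 0 (N - b), h k + ∑ k ∈ Finset.Ioc (N - b) N, h k := by
  have e : Finset.Icc 0 N = Finset.Icc 0 (N - b) ∪ Finset.Ioc (N - b) N := by
    ext k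
    simp only [Finset.mem_Icc, Finset.mem_union, Finset.mem_Ioc]
    omega
  rw [e, Finset.sum_union]
  rw [Finset.disjoint_left]
  intro k hk
  simp only [Finset.mem_Icc, Finset.mem_Ioc] at hk ⊢
  omega

theorem HasRel.top {b : ℕ} (h : HasRel 0 b) (hb : 1 ≤ b) (N : ℕ) (hN : b ≤ N) :
    finrank ℚ (S 0 N) ≤ ∑ k ∈ Finset.Ioc (N - b) N, finrank ℚ (Zs k) := by
  have h1 := h.zero N hN
  rw [sum_split b N hb hN] at h1
  omega

theorem not_rel_zero : ¬ HasRel 0 0 := by
  rintro ⟨z, hz, hs, j, _, hj, hne⟩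
  have hj0 : j = 0 := by omega
  subst hj0
  apply hne
  simpa using hs

theorem mono_two (k : ℕ) : finrank ℚ (Zs k) ≤ finrank ℚ (Zs (k + 2)) := by
  have hpi : Real.pi ^ 2 ≠ 0 := pow_ne_zero _ Real.pi_ne_zero
  let f : Zs k →ₗ[ℚ] Zs (k + 2) := LinearMap.codRestrict _
    ((LinearMap.mulRight ℚ (Real.pi ^ 2)).domRestrict (Zs k))
    (fun y => mul_mem _ _ _ _ y.2 pi_sq_mem)
  refine LinearMap.finrank_le_finrank_of_injective (f := f) ?_
  intro x y hxy
  have h : (x : ℝ) * Real.pi ^ 2 = y * Real.pi ^ 2 := congrArg Subtype.val hxy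
  exact Subtype.ext (mul_right_cancel₀ hpi h)

theorem mono_even (k j : ℕ) : finrank ℚ (Zs k) ≤ finrank ℚ (Zs (k + 2 * j)) := by
  induction j with
  | zero => exact le_rfl
  | succ j ih =>
    refine ih.trans ?_
    have := mono_two (k + 2 * j)
    rwa [show k + 2 * j + 2 = k + 2 * (j + 1) by ring] at this

theorem le_max (k N : ℕ) (hk : k ≤ N) :
    finrank ℚ (Zs k) ≤ max (finrank ℚ (Zs N)) (finrank ℚ (Zs (N - 1))) := by
  rcases Nat.even_or_odd' (N - k) with ⟨j, hj | hj⟩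
  · refine le_max_of_le_left ?_
    have := mono_even k j
    rwa [show k + 2 * j = N by omega] at this
  · refine le_max_of_le_right ?_
    have := mono_even k j
    rwa [show k + 2 * j = N - 1 by omega] at this

/-- the growth of the dimension of the sum -/
theorem lower (N : ℕ) : 2 * N / 3 + 1 ≤ finrank ℚ (S 0 N) := by
  have h := Pool.Agent.Results.MP_2000e9_nt.SumDimension.result N
  have hle : (⨆ n ∈ Finset.range (N + 1), Pool.Agent.Results.MP_2000e9_nt.SumDimension.Z n) ≤ S 0 N := by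
    refine iSup₂_le fun n hn => ?_
    have h1 : Pool.Agent.Results.MP_2000e9_nt.SumDimension.Z n ≤ Zs n := by
      unfold Pool.Agent.Results.MP_2000e9_nt.SumDimension.Z Zs
      rw [Submodule.span_le]
      rintro x ⟨t, k, h1, h2, h3, rfl⟩
      refine Submodule.subset_span ⟨t, k ∘ Fin.rev, fun i => h1 _, fun h => ?_, ?_, ?_⟩
      · have := h2 h
        have e : Fin.rev (⟨0, h⟩ : Fin t) = ⟨t - 1, Nat.sub_lt h one_pos⟩ := by
          ext
          simp only [Fin.val_rev]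
          omega
        rw [Function.comp_apply, e]
        exact this
      · rw [← h3]
        exact Fintype.sum_equiv Fin.revPerm _ _ fun i => rfl
      · let e : {m : Fin t → ℕ // StrictMono m ∧ ∀ i, 1 ≤ m i} ≃
            {k : Fin t → ℕ // StrictAnti k ∧ ∀ i, 1 ≤ k i} :=
          { toFun := fun m => ⟨m.1 ∘ Fin.rev, fun i j hij => m.2.1 (Fin.rev_lt_rev.2 hij), fun i => m.2.2 _⟩
            invFun := fun m => ⟨m.1 ∘ Fin.rev, fun i j hij => m.2.1 (Fin.rev_lt_rev.2 hij), fun i => m.2.2 _⟩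
            left_inv := fun m => by
              apply Subtype.ext
              funext i
              simp
            right_inv := fun m => by
              apply Subtype.ext
              funext i
              simp }
        rw [← e.tsum_eq]
        refine tsum_congr fun m => ?_
        exact Fintype.prod_equiv Fin.revPerm _ _ fun i => by simp [e]
    refine h1.trans (le_iSup₂_of_le (f := fun k (_ : k ∈ Finset.Icc 0 N) => Zs k) n ?_ le_rfl)
    rw [Finset.mem_Icc]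
    rw [Finset.mem_range] at hn
    omega
  have h2 : Module.rank ℚ ↥(⨆ n ∈ Finset.range (N + 1),
      Pool.Agent.Results.MP_2000e9_nt.SumDimension.Z n) ≤ Module.rank ℚ (S 0 N) :=
    Submodule.rank_mono hle
  haveI : FiniteDimensional ℚ (S 0 N) := by
    rw [← map_P]
    infer_instance
  have h3 := h.trans h2
  rw [← finrank_eq_rank] at h3
  exact_mod_cast h3

theorem HasRel.growth {b : ℕ} (h : HasRel 0 b) (hb : 1 ≤ b) (N : ℕ) (hN : b ≤ N) :
    2 * N / 3 + 1 ≤ ∑ k ∈ Finset.Ioc (N - b) N, finrank ℚ (Zs k) ∧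
    2 * N / 3 + 1 ≤ b * max (finrank ℚ (Zs N)) (finrank ℚ (Zs (N - 1))) := by
  have h1 := (lower N).trans (h.top hb N hN)
  refine ⟨h1, h1.trans ?_⟩
  calc ∑ k ∈ Finset.Ioc (N - b) N, finrank ℚ (Zs k)
      ≤ ∑ k ∈ Finset.Ioc (N - b) N, max (finrank ℚ (Zs N)) (finrank ℚ (Zs (N - 1))) :=
        Finset.sum_le_sum fun k hk => le_max k N (Finset.mem_Ioc.1 hk).2
    _ = b * max (finrank ℚ (Zs N)) (finrank ℚ (Zs (N - 1))) := by
        rw [Finset.sum_const, Nat.card_Ioc, smul_eq_mul]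
        congr 1
        omega

/-- sums of all dimensions -/
noncomputable def tot (N : ℕ) : ℕ := ∑ k ∈ Finset.Icc 0 N, finrank ℚ (Zs k)

theorem one_le_tot (N : ℕ) : 1 ≤ tot N := by
  have h0 : 2 * N / 3 + 1 ≤ tot N := (lower N).trans (finrank_S_le 0 N)
  omega

theorem tot_lt (N : ℕ) : tot N < 2 ^ (N + 1) := by
  unfold tot
  induction N with
  | zero =>
    have := finrank_le_pow 0
    simp only [pow_zero] at this
    rw [Finset.Icc_self, Finset.sum_singleton]
    omega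
  | succ N ih =>
    rw [Finset.sum_Icc_succ_top (by omega)]
    have := finrank_le_pow (N + 1)
    rw [pow_succ 2 (N + 1)]
    omega

theorem HasRel.not_tendsto {b : ℕ} (h : HasRel 0 b) (hb : 1 ≤ b) :
    ¬ Tendsto (fun N => (finrank ℚ (S 0 N) : ℝ) / tot N) atTop (𝓝 1) := by
  intro ht
  have hε : (0 : ℝ) < ((2 : ℝ) ^ (b + 1))⁻¹ := by positivity
  have h1 := ht.eventually (lt_mem_nhds (show 1 - ((2 : ℝ) ^ (b + 1))⁻¹ < 1 by linarith))
  rw [eventually_atTop] at h1
  obtain ⟨N₀, hN₀⟩ := h1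
  have key : ∀ N, N₀ ≤ N → 2 ^ (b + 1) * tot N ≤ tot (N + b) := by
    intro N hN
    have h2 := hN₀ (N + b) (by omega)
    have h3 := h.zero (N + b) (by omega)
    rw [Nat.add_sub_cancel] at h3
    have h3' : finrank ℚ (S 0 (N + b)) + tot N ≤ tot (N + b) := h3
    have hp : (0 : ℝ) < tot (N + b) := by exact_mod_cast one_le_tot (N + b)
    rw [lt_div_iff₀ hp] at h2
    have h4 : (finrank ℚ (S 0 (N + b)) : ℝ) + tot N ≤ tot (N + b) := by exact_mod_cast h3'
    have h5 : (tot N : ℝ) ≤ ((2 : ℝ) ^ (b + 1))⁻¹ * tot (N + b) := by linarith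
    have h6 : (2 : ℝ) ^ (b + 1) * tot N ≤ tot (N + b) := by
      have := mul_le_mul_of_nonneg_left h5 (show (0 : ℝ) ≤ 2 ^ (b + 1) by positivity)
      rwa [← mul_assoc, mul_inv_cancel₀ (by positivity), one_mul] at this
    exact_mod_cast h6
  have iter : ∀ j, 2 ^ ((b + 1) * j) ≤ tot (N₀ + b * j) := by
    intro j
    induction j with
    | zero => simpa using one_le_tot N₀
    | succ j ih =>
      have h2 := key (N₀ + b * j) (by omega)
      calc 2 ^ ((b + 1) * (j + 1)) = 2 ^ (b + 1) * 2 ^ ((b + 1) * j) := by ring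
        _ ≤ 2 ^ (b + 1) * tot (N₀ + b * j) := Nat.mul_le_mul_left _ ih
        _ ≤ tot (N₀ + b * j + b) := h2
        _ = tot (N₀ + b * (j + 1)) := by ring_nf
  have h7 := iter (N₀ + 1)
  have h8 := tot_lt (N₀ + b * (N₀ + 1))
  have h9 : 2 ^ ((b + 1) * (N₀ + 1)) < 2 ^ (N₀ + b * (N₀ + 1) + 1) := lt_of_le_of_lt h7 h8
  have h10 := (Nat.pow_lt_pow_iff_right (by norm_num : 1 < 2)).1 h9
  have e : (b + 1) * (N₀ + 1) = N₀ + b * (N₀ + 1) + 1 := by ring
  omega

end Pool.Agent.Q263.ZO
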