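import Mathlib

/-!
# Relations in an integral domain and the dimension of images of subspaces
-/

set_option autoImplicit false

open Module

namespace Pool.Agent.Q263.ZO

/-- If multiplication by `x ≠ 0` maps `V` into the part of `W` which is killed by `φ`, then the
image of `W` under `φ` has dimension at most `dim W - dim V`. -/
theorem drop {H A : Type*} [CommRing H] [IsDomain H] [Algebra ℚ H] [AddCommGroup A] [Module ℚ A]
    (φ : H →ₗ[ℚ] A) (V W : Submodule ℚ H) [FiniteDimensional ℚ W] (x : H) (hx : x ≠ 0)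
    (h1 : ∀ y ∈ V, x * y ∈ W) (h2 : ∀ y ∈ V, φ (x * y) = 0) :
    finrank ℚ (W.map φ) + finrank ℚ V ≤ finrank ℚ W := by
  have e : W.map φ = LinearMap.range (φ.domRestrict W) := by
    rw [LinearMap.range_domRestrict]
  rw [e, ← (φ.domRestrict W).finrank_range_add_finrank_ker]
  refine Nat.add_le_add_left ?_ _
  let g : V →ₗ[ℚ] W := LinearMap.codRestrict W ((LinearMap.mulLeft ℚ x).domRestrict V)
    (fun y => h1 y y.2)
  let f : V →ₗ[ℚ] LinearMap.ker (φ.domRestrict W) :=
    LinearMap.codRestrict _ g (fun y => by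
      rw [LinearMap.mem_ker]
      exact h2 y y.2)
  refine LinearMap.finrank_le_finrank_of_injective (f := f) ?_
  intro a b hab
  have h3 : x * (a : H) = x * (b : H) := congrArg (fun t => ((t : W) : H)) (congrArg Subtype.val hab)
  exact Subtype.ext (mul_left_cancel₀ hx h3)

/-- an element of `W` in the kernel, if the image has smaller dimension -/
theorem exists_ker {H A : Type*} [AddCommGroup H] [Module ℚ H] [AddCommGroup A] [Module ℚ A]
    (φ : H →ₗ[ℚ] A) (W : Submodule ℚ H) [FiniteDimensional ℚ W]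
    (h : finrank ℚ (W.map φ) < finrank ℚ W) : ∃ x ∈ W, x ≠ 0 ∧ φ x = 0 := by
  by_contra hc
  push Not at hc
  have e : W.map φ = LinearMap.range (φ.domRestrict W) := by
    rw [LinearMap.range_domRestrict]
  rw [e] at h
  have hinj : Function.Injective (φ.domRestrict W) := by
    rw [← LinearMap.ker_eq_bot, LinearMap.ker_eq_bot']
    intro m hm
    by_contra hm0
    exact hc m m.2 (fun h0 => hm0 (Subtype.ext h0)) hm
  rw [LinearMap.finrank_range_of_inj hinj] at h
  exact lt_irrefl _ h

/-- the image has at most the dimension -/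
theorem map_le {H A : Type*} [AddCommGroup H] [Module ℚ H] [AddCommGroup A] [Module ℚ A]
    (φ : H →ₗ[ℚ] A) (W : Submodule ℚ H) [FiniteDimensional ℚ W] :
    finrank ℚ (W.map φ) ≤ finrank ℚ W := Submodule.finrank_map_le φ W

/-! ### The sequence `1, 0, 1, 1, 1, 2, 2, 3, 4, 5, 7, ...` -/

/-- `d 0 = 1`, `d 1 = 0`, `d 2 = 1`, `d (n + 3) = d (n + 1) + d n` -/
def d : ℕ → ℕ
  | 0 => 1
  | 1 => 0
  | 2 => 1
  | (n + 3) => d (n + 1) + d n

theorem d_rec (n : ℕ) : d (n + 3) = d (n + 1) + d n := by rw [d]

theorem d_pos (n : ℕ) (hn : n ≠ 1) : 1 ≤ d n := by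
  induction n using Nat.strong_induction_on with
  | _ n ih =>
    match n with
    | 0 => simp [d]
    | 1 => exact absurd rfl hn
    | 2 => simp [d]
    | 3 => simp [d]
    | (n + 4) =>
      rw [show n + 4 = (n + 1) + 3 by ring, d_rec]
      have := ih (n + 1 + 1) (by omega) (by omega)
      omega

theorem d_mono (n : ℕ) : d (n + 1) ≤ d (n + 2) := by
  induction n using Nat.strong_induction_on with
  | _ n ih =>
    match n with
    | 0 => simp [d]
    | 1 => simp [d]
    | 2 => simp [d]
    | (n + 3) =>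
      have h1 := ih n (by omega)
      have h2 := ih (n + 1) (by omega)
      have e1 : d (n + 3 + 1) = d (n + 2) + d (n + 1) := by
        rw [show n + 3 + 1 = (n + 1) + 3 by ring, d_rec]
      have e2 : d (n + 3 + 2) = d (n + 3) + d (n + 2) := by
        rw [show n + 3 + 2 = (n + 2) + 3 by ring, d_rec]
      rw [e1, e2]
      have h3 : d (n + 2) ≤ d (n + 3) := h2
      omega

theorem d_le_two_mul (n : ℕ) : d (n + 3) ≤ 2 * d (n + 2) := by
  induction n using Nat.strong_induction_on with
  | _ n ih =>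
    match n with
    | 0 => simp [d]
    | 1 => simp [d]
    | 2 => simp [d]
    | (n + 3) =>
      have h1 := ih n (by omega)
      have h2 := ih (n + 1) (by omega)
      have e1 : d (n + 3 + 3) = d (n + 4) + d (n + 3) := by
        rw [d_rec]
      have e2 : d (n + 3 + 2) = d (n + 3) + d (n + 2) := by
        rw [show n + 3 + 2 = (n + 2) + 3 by ring, d_rec]
      rw [e1, e2]
      have h3 : d (n + 4) ≤ 2 * d (n + 3) := h2
      omega

theorem d_le_pow (n m : ℕ) : d (n + m + 2) ≤ 2 ^ m * d (n + 2) := by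
  induction m with
  | zero => simp
  | succ m ih =>
    have h := d_le_two_mul (n + m)
    calc d (n + (m + 1) + 2) = d (n + m + 3) := by ring_nf
      _ ≤ 2 * d (n + m + 2) := h
      _ ≤ 2 * (2 ^ m * d (n + 2)) := Nat.mul_le_mul_left 2 ih
      _ = 2 ^ (m + 1) * d (n + 2) := by ring

theorem d_unique (e : ℕ → ℕ) (h0 : e 0 = 1) (h1 : e 1 = 0) (h2 : e 2 = 1)
    (h : ∀ n, 3 ≤ n → e n = e (n - 2) + e (n - 3)) : e = d := by
  funext n
  induction n using Nat.strong_induction_on with
  | _ n ih =>
    match n with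
    | 0 => simp [d, h0]
    | 1 => simp [d, h1]
    | 2 => simp [d, h2]
    | (n + 3) =>
      rw [h (n + 3) (by omega), d_rec]
      rw [ih (n + 3 - 2) (by omega), ih (n + 3 - 3) (by omega)]
      rfl

end Pool.Agent.Q263.ZO
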