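import Pool.Agent.Q263.ZO.Graded
import Pool.Agent.Q263.ZO.DirectLaw

/-!
# Both parts of Zagier's conjecture and the dimension of the sum of the weight spaces
-/

set_option autoImplicit false

open Module Filter Topology

namespace Pool.Agent.Q263.ZO

open Pool.Agent.H447R2.MZ

/-- the sum of the spaces `W k`, `k ≤ N` -/
noncomputable def sumMap {H : Type} [CommRing H] [Algebra ℚ H] (W : ℕ → Submodule ℚ H) (N : ℕ) :
    ((k : Finset.Icc 0 N) → W k) →ₗ[ℚ] H :=
  ∑ k : Finset.Icc 0 N, (W k).subtype ∘ₗ LinearMap.proj k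

theorem sumMap_apply {H : Type} [CommRing H] [Algebra ℚ H] (W : ℕ → Submodule ℚ H) (N : ℕ)
    (z : (k : Finset.Icc 0 N) → W k) : sumMap W N z = ∑ k : Finset.Icc 0 N, (z k : H) := by
  simp [sumMap, LinearMap.sum_apply]

theorem range_sumMap {H : Type} [CommRing H] [Algebra ℚ H] (W : ℕ → Submodule ℚ H) (N : ℕ) :
    LinearMap.range (sumMap W N) = ⨆ k ∈ Finset.Icc 0 N, W k := by
  classical
  apply le_antisymm
  · rintro _ ⟨z, rfl⟩
    rw [sumMap_apply]
    refine Submodule.sum_mem _ fun k _ => ?_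
    exact (le_iSup₂_of_le (f := fun k (_ : k ∈ Finset.Icc 0 N) => W k) (k : ℕ) k.2 le_rfl) (z k).2
  · refine iSup₂_le fun k hk x hx => ?_
    refine ⟨Pi.single (⟨k, hk⟩ : Finset.Icc 0 N) (⟨x, hx⟩ : W k), ?_⟩
    rw [sumMap_apply, Finset.sum_eq_single (⟨k, hk⟩ : Finset.Icc 0 N)]
    · rw [Pi.single_eq_same]
    · intro b _ hb
      rw [Pi.single_eq_of_ne hb]
      rfl
    · intro h
      exact absurd (Finset.mem_univ _) h

/-- the motivic algebra is graded by the weight -/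
def Motivic.Graded {Z : ℕ → Submodule ℚ ℝ} (M : Motivic Z) : Prop :=
  ∀ (N : ℕ) (z : ℕ → M.H), (∀ k, z k ∈ M.W k) → ∑ k ∈ Finset.Icc 0 N, z k = 0 → ∀ k ≤ N, z k = 0

theorem sumMap_injective {Z : ℕ → Submodule ℚ ℝ} (M : Motivic Z) (hM : M.Graded) (N : ℕ) :
    Function.Injective (sumMap M.W N) := by
  classical
  rw [← LinearMap.ker_eq_bot, LinearMap.ker_eq_bot']
  intro z hz
  rw [sumMap_apply] at hz
  let w : ℕ → M.H := fun k => if h : k ∈ Finset.Icc 0 N then (z ⟨k, h⟩ : M.H) else 0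
  have hw : ∀ k, w k ∈ M.W k := by
    intro k
    simp only [w]
    split_ifs with h
    · exact (z ⟨k, h⟩).2
    · exact Submodule.zero_mem _
  have hs : ∑ k ∈ Finset.Icc 0 N, w k = 0 := by
    rw [← hz, ← Finset.sum_coe_sort (Finset.Icc 0 N) w]
    refine Finset.sum_congr rfl fun k _ => ?_
    simp only [w]
    rw [dif_pos k.2]
  have h1 := hM N w hw hs
  funext k
  have h2 := h1 k (Finset.mem_Icc.1 k.2).2
  simp only [w] at h2
  rw [dif_pos k.2] at h2
  exact Subtype.ext h2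

/-- `d 0 + ... + d N` -/
def D (N : ℕ) : ℕ := ∑ k ∈ Finset.Icc 0 N, d k

theorem finrank_F {Z : ℕ → Submodule ℚ ℝ} (M : Motivic Z) (hM : M.Graded) (N : ℕ) :
    finrank ℚ ↥(⨆ k ∈ Finset.Icc 0 N, M.W k) = D N := by
  rw [← range_sumMap, LinearMap.finrank_range_of_inj (sumMap_injective M hM N),
    Module.finrank_pi_fintype ℚ, D, ← Finset.sum_coe_sort (Finset.Icc 0 N) d]
  exact Finset.sum_congr rfl fun k _ => M.rank k

theorem map_F {Z : ℕ → Submodule ℚ ℝ} (M : Motivic Z) (N : ℕ) :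
    (⨆ k ∈ Finset.Icc 0 N, M.W k).map M.per.toLinearMap = ⨆ k ∈ Finset.Icc 0 N, Z k := by
  rw [Submodule.map_iSup]
  refine iSup_congr fun k => ?_
  rw [Submodule.map_iSup]
  exact iSup_congr fun _ => M.map k

theorem fin_F {Z : ℕ → Submodule ℚ ℝ} (M : Motivic Z) (N : ℕ) :
    FiniteDimensional ℚ ↥(⨆ k ∈ Finset.Icc 0 N, M.W k) := by
  rw [← range_sumMap]
  infer_instance

/-- A failure of weight at most `n` has consequences for all larger weights. -/
theorem Motivic.fstep (M : Motivic Zs) (hM : M.Graded) (n N : ℕ) (hN : n ≤ N)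
    (h : finrank ℚ (S 0 n) ≠ D n) : finrank ℚ (S 0 N) + D (N - n) ≤ D N := by
  haveI := fin_F M n
  haveI := fin_F M N
  have e : ∀ m, finrank ℚ (S 0 m) = finrank ℚ ((⨆ k ∈ Finset.Icc 0 m, M.W k).map M.per.toLinearMap) := by
    intro m
    rw [map_F M m]
    rfl
  have h1 : finrank ℚ ((⨆ k ∈ Finset.Icc 0 n, M.W k).map M.per.toLinearMap) <
      finrank ℚ ↥(⨆ k ∈ Finset.Icc 0 n, M.W k) := by
    refine lt_of_le_of_ne (map_le _ _) ?_
    rw [finrank_F M hM n, ← e]
    exact h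
  obtain ⟨x, hx, hx0, hp⟩ := exists_ker _ _ h1
  have hmul : (⨆ k ∈ Finset.Icc 0 n, M.W k) * (⨆ k ∈ Finset.Icc 0 (N - n), M.W k) ≤
      ⨆ k ∈ Finset.Icc 0 N, M.W k := by
    rw [Submodule.iSup_mul]
    refine iSup_le fun a => ?_
    rw [Submodule.iSup_mul]
    refine iSup_le fun ha => ?_
    rw [Submodule.mul_iSup]
    refine iSup_le fun b => ?_
    rw [Submodule.mul_iSup]
    refine iSup_le fun hb => ?_
    rw [Finset.mem_Icc] at ha hb
    have h2 : M.W a * M.W b ≤ M.W (a + b) := by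
      rw [Submodule.mul_le]
      exact fun x hx y hy => M.mul a b x y hx hy
    exact h2.trans (le_iSup₂_of_le (f := fun k (_ : k ∈ Finset.Icc 0 N) => M.W k) (a + b)
      (Finset.mem_Icc.2 (by omega)) le_rfl)
  have h2 := drop M.per.toLinearMap (⨆ k ∈ Finset.Icc 0 (N - n), M.W k)
    (⨆ k ∈ Finset.Icc 0 N, M.W k) x hx0
    (fun y hy => hmul (Submodule.mul_mem_mul hx hy))
    (fun y _ => by
      have h3 : M.per x = 0 := hp
      have h4 : M.per (x * y) = 0 := by rw [map_mul, h3, zero_mul]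
      exact h4)
  rwa [← e, finrank_F M hM, finrank_F M hM] at h2

theorem D_pos (N : ℕ) : 1 ≤ D N := by
  unfold D
  have h1 : d 0 ≤ ∑ k ∈ Finset.Icc 0 N, d k :=
    Finset.single_le_sum (f := d) (fun _ _ => Nat.zero_le _) (Finset.mem_Icc.2 ⟨le_rfl, Nat.zero_le _⟩)
  have h2 : d 0 = 1 := by simp [d]
  omega

/-- both parts of the conjecture -/
def Both : Prop := (∀ n, finrank ℚ (Zs n) = d n) ∧ ∀ N, ¬ HasRel 0 N

theorem sum_finrank_le (M : Motivic Zs) (N : ℕ) :
    ∑ k ∈ Finset.Icc 0 N, finrank ℚ (Zs k) ≤ D N := Finset.sum_le_sum fun k _ => M.le k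

theorem both_iff (M : Motivic Zs) : Both ↔ ∀ N, finrank ℚ (S 0 N) = D N := by
  constructor
  · rintro ⟨h1, h2⟩ N
    rw [finrank_S_eq 0 N (h2 N)]
    exact Finset.sum_congr rfl fun k _ => h1 k
  · intro h
    refine ⟨fun n => ?_, fun N hr => ?_⟩
    · have h1 := finrank_S_le 0 n
      rw [h n] at h1
      have h2 : ∑ k ∈ Finset.Icc 0 n, finrank ℚ (Zs k) = ∑ k ∈ Finset.Icc 0 n, d k :=
        le_antisymm (sum_finrank_le M n) h1
      exact (Finset.sum_eq_sum_iff_of_le fun k _ => M.le k).1 h2 n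
        (Finset.mem_Icc.2 ⟨Nat.zero_le n, le_rfl⟩)
    · have h1 := hr.zero N le_rfl
      rw [h N, Nat.sub_self, Finset.Icc_self, Finset.sum_singleton, finrank_zero] at h1
      have h2 := sum_finrank_le M N
      omega

theorem D_succ (N : ℕ) : D (N + 1) = D N + d (N + 1) := by
  unfold D
  rw [Finset.sum_Icc_succ_top (by omega)]

theorem d_succ_le_D (N : ℕ) : d (N + 1) ≤ D N := by
  match N with
  | 0 => simp [d]
  | 1 => simp [d, D, Finset.sum_Icc_succ_top]
  | (N + 2) =>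
    rw [show N + 2 + 1 = N + 3 by ring, d_rec]
    have h1 := D_succ N
    have h2 := D_succ (N + 1)
    have h3 : d N ≤ D N :=
      Finset.single_le_sum (f := d) (fun _ _ => Nat.zero_le _) (Finset.mem_Icc.2 ⟨Nat.zero_le _, le_rfl⟩)
    rw [show N + 2 = N + 1 + 1 by ring, h2, h1]
    omega

theorem D_le_pow (m n : ℕ) : D (m + n) ≤ 2 ^ n * D m := by
  induction n with
  | zero => simp
  | succ n ih =>
    have h1 := D_succ (m + n)
    have h2 := d_succ_le_D (m + n)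
    calc D (m + (n + 1)) = D (m + n + 1) := by ring_nf
      _ ≤ 2 * D (m + n) := by omega
      _ ≤ 2 * (2 ^ n * D m) := Nat.mul_le_mul_left 2 ih
      _ = 2 ^ (n + 1) * D m := by ring

theorem D_split (n N : ℕ) (hN : n ≤ N) : D N = D (N - n) + ∑ k ∈ Finset.Ioc (N - n) N, d k := by
  rcases Nat.eq_zero_or_pos n with rfl | hn
  · simp
  · exact sum_split n N hn hN d

theorem Motivic.fratio (M : Motivic Zs) (hM : M.Graded) (n : ℕ) (h : finrank ℚ (S 0 n) ≠ D n)
    (N : ℕ) (hN : n ≤ N) : 2 ^ n * finrank ℚ (S 0 N) ≤ (2 ^ n - 1) * D N := by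
  have h1 := M.fstep hM n N hN h
  have h2 := D_le_pow (N - n) n
  rw [Nat.sub_add_cancel hN] at h2
  have h3 : 1 ≤ 2 ^ n := Nat.one_le_two_pow
  have h4 := Nat.mul_le_mul_left (2 ^ n) h1
  rw [Nat.mul_add] at h4
  have h5 : (2 ^ n - 1) * D N + D N = 2 ^ n * D N := by
    rw [← Nat.succ_mul, Nat.succ_eq_add_one, Nat.sub_add_cancel h3]
  omega

theorem both_iff_limsup (M : Motivic Zs) (hM : M.Graded) :
    Both ↔ ∀ ε : ℝ, 0 < ε → ∃ᶠ N in atTop, (1 - ε) * D N < finrank ℚ (S 0 N) := by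
  rw [both_iff M]
  constructor
  · intro h ε hε
    refine Frequently.of_forall fun N => ?_
    rw [h]
    have h1 : (1 : ℝ) ≤ D N := by exact_mod_cast D_pos N
    nlinarith
  · intro h n
    by_contra hne
    obtain ⟨N, hN, hN2⟩ := (frequently_atTop.1 (h ((2 : ℝ) ^ n)⁻¹ (by positivity))) n
    have h1 := M.fratio hM n hne N hN
    have h3 : 1 ≤ 2 ^ n := Nat.one_le_two_pow
    have h2 : (2 : ℝ) ^ n * finrank ℚ (S 0 N) ≤ (2 ^ n - 1) * D N := by
      have : ((2 ^ n * finrank ℚ (S 0 N) : ℕ) : ℝ) ≤ (((2 ^ n - 1) * D N : ℕ) : ℝ) := by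
        exact_mod_cast h1
      rw [Nat.cast_mul, Nat.cast_mul, Nat.cast_sub h3] at this
      push_cast at this
      exact this
    have h4 : (0 : ℝ) < 2 ^ n := by positivity
    have h5 : (2 : ℝ) ^ n * ((1 - ((2 : ℝ) ^ n)⁻¹) * D N) = (2 ^ n - 1) * D N := by
      field_simp
    have h6 := mul_lt_mul_of_pos_left hN2 h4
    rw [h5] at h6
    linarith

theorem both_iff_gap (M : Motivic Zs) (hM : M.Graded) :
    Both ↔ ∀ n, ∃ N, n ≤ N ∧ ∑ k ∈ Finset.Ioc (N - n) N, d k < finrank ℚ (S 0 N) := by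
  rw [both_iff M]
  constructor
  · intro h n
    refine ⟨n, le_rfl, ?_⟩
    have h1 := D_split n n le_rfl
    rw [h n, h1, Nat.sub_self]
    have h2 := D_pos 0
    omega
  · intro h n
    by_contra hne
    obtain ⟨N, hN, h1⟩ := h n
    have h2 := M.fstep hM n N hN hne
    have h3 := D_split n N hN
    omega

/-- where the failure comes from -/
theorem ne_iff (M : Motivic Zs) (n : ℕ) :
    finrank ℚ (S 0 n) ≠ D n ↔ (∃ k ≤ n, finrank ℚ (Zs k) ≠ d k) ∨ HasRel 0 n := by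
  constructor
  · intro h
    by_contra hc
    push Not at hc
    apply h
    rw [finrank_S_eq 0 n hc.2]
    exact Finset.sum_congr rfl fun k hk => hc.1 k (Finset.mem_Icc.1 hk).2
  · rintro (⟨k, hk, hne⟩ | hr) h
    · have h1 := finrank_S_le 0 n
      rw [h] at h1
      have h2 : ∑ k ∈ Finset.Icc 0 n, finrank ℚ (Zs k) = ∑ k ∈ Finset.Icc 0 n, d k :=
        le_antisymm (sum_finrank_le M n) h1
      exact hne ((Finset.sum_eq_sum_iff_of_le fun k _ => M.le k).1 h2 k
        (Finset.mem_Icc.2 ⟨Nat.zero_le k, hk⟩))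
    · have h1 := hr.zero n le_rfl
      rw [h, Nat.sub_self, Finset.Icc_self, Finset.sum_singleton, finrank_zero] at h1
      have h2 := sum_finrank_le M n
      omega

end Pool.Agent.Q263.ZO
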