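import Pool.Agent.Q263.ZO.Engine

/-!
# Hoffman elements of bounded level
-/

set_option autoImplicit false

open Module Filter

namespace Pool.Agent.Q263.ZO.Hoff

/-- `ζ(k_1, …, k_n) = ∑_{m_1 > ⋯ > m_n > 0} m_1^(-k_1) ⋯ m_n^(-k_n)` -/
noncomputable def zeta (w : List ℕ) : ℝ :=
  ∑' m : {m : Fin w.length → ℕ // StrictAnti m ∧ ∀ i, 0 < m i},
    ∏ i, ((m.1 i : ℝ) ^ (w.get i))⁻¹

/-- the span of all multiple zeta values of weight `k` -/
noncomputable def Z (k : ℕ) : Submodule ℚ ℝ :=
  Submodule.span ℚ {x : ℝ | ∃ s : List ℕ, (∀ a ∈ s, 1 ≤ a) ∧ (∀ a ∈ s.head?, 2 ≤ a) ∧ s.sum = k ∧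
    x = zeta s}

/-- the sequences with entries `2`, `3`, of weight `k`, with at most `d` entries equal to `3` -/
def C (k d : ℕ) : Set (List ℕ) := {w | (∀ a ∈ w, a = 2 ∨ a = 3) ∧ w.sum = k ∧ w.count 3 ≤ d}

theorem C_finite (k d : ℕ) : (C k d).Finite := by
  refine (Set.finite_range (fun c : Composition k => c.blocks)).subset ?_
  rintro w ⟨hw, hk, _⟩
  exact ⟨⟨w, fun {i} hi => by rcases hw i hi with h | h <;> omega, hk⟩, rfl⟩

instance (k d : ℕ) : Finite (C k d) := (C_finite k d).to_subtype

theorem C_mono (k : ℕ) {d e : ℕ} (h : d ≤ e) : C k d ⊆ C k e := fun _ hw => ⟨hw.1, hw.2.1, hw.2.2.trans h⟩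

theorem length_le (w : List ℕ) (hw : ∀ a ∈ w, a = 2 ∨ a = 3) : w.length ≤ w.sum := by
  induction w with
  | nil => simp
  | cons a w ih =>
    have h1 := ih fun b hb => hw b (List.mem_cons_of_mem _ hb)
    have h2 := hw a (by simp)
    simp only [List.length_cons, List.sum_cons]
    omega

theorem C_top (k d : ℕ) : C k d ⊆ C k k := by
  rintro w ⟨h1, h2, _⟩
  refine ⟨h1, h2, ?_⟩
  have := length_le w h1
  have := List.count_le_length (a := 3) (l := w)
  omega

/-- the weights and levels for which there is a word -/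
theorem C_nonempty (k d : ℕ) (h1 : k ≠ 1) (h2 : Even k ∨ 1 ≤ d) : (C k d).Nonempty := by
  rcases Nat.even_or_odd' k with ⟨m, rfl | rfl⟩
  · refine ⟨List.replicate m 2, fun a ha => Or.inl (List.eq_of_mem_replicate ha), ?_, ?_⟩
    · rw [List.sum_replicate, smul_eq_mul, mul_comm]
    · rw [List.count_replicate]
      simp
  · have hd : 1 ≤ d := by
      rcases h2 with h | h
      · exfalso
        rw [Nat.even_add_one] at h
        exact h (even_two_mul m)
      · exact h
    obtain ⟨j, rfl⟩ : ∃ j, m = j + 1 := ⟨m - 1, by omega⟩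
    refine ⟨3 :: List.replicate j 2, fun a ha => ?_, ?_, ?_⟩
    · rcases List.mem_cons.1 ha with rfl | h
      · exact Or.inr rfl
      · exact Or.inl (List.eq_of_mem_replicate h)
    · rw [List.sum_cons, List.sum_replicate, smul_eq_mul]
      ring
    · rw [List.count_cons, List.count_replicate]
      simpa using hd

/-- `H_{k,d}` is linearly independent -/
def Indep (k d : ℕ) : Prop := LinearIndependent ℚ (fun w : C k d => zeta w)

theorem Indep.mono {k d e : ℕ} (h : Indep k e) (hde : C k d ⊆ C k e) : Indep k d := by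
  have := h.comp (Set.inclusion hde) (Set.inclusion_injective hde)
  exact this

/-- The known facts on motivic Hoffman elements (Brown): an integral domain `H`, linearly
independent elements `e w` for the words `w` with letters `2`, `3`, the product of two of them is a
combination of those of the right weight whose level is at most the sum of the levels, and a
homomorphism to `ℝ` with values `ζ(w)`; and the numbers `ζ(w)` span the space of all multiple zeta
values of their weight. -/
structure Motivic where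
  /-- the algebra of motivic multiple zeta values -/
  H : Type
  [ring : CommRing H]
  [dom : IsDomain H]
  [alg : Algebra ℚ H]
  /-- the motivic Hoffman elements -/
  e : List ℕ → H
  indep : LinearIndependent ℚ (fun w : {w : List ℕ // ∀ a ∈ w, a = 2 ∨ a = 3} => e w)
  mul : ∀ k d k' d' u v, u ∈ C k d → v ∈ C k' d' →
    e u * e v ∈ Submodule.span ℚ (e '' C (k + k') (d + d'))
  /-- the period map -/
  per : H →ₐ[ℚ] ℝ
  per_e : ∀ w, (∀ a ∈ w, a = 2 ∨ a = 3) → per (e w) = zeta w
  span : ∀ k, Submodule.span ℚ (zeta '' C k k) = Z k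

attribute [instance] Motivic.ring Motivic.dom Motivic.alg

namespace Motivic

variable (M : Motivic)

include M

/-- the span of the motivic elements -/
def V (k d : ℕ) : Submodule ℚ M.H := Submodule.span ℚ (M.e '' C k d)

theorem indepC (k d : ℕ) : LinearIndependent ℚ (fun w : C k d => M.e w) := by
  have := M.indep.comp (fun w : C k d => (⟨w, w.2.1⟩ : {w : List ℕ // ∀ a ∈ w, a = 2 ∨ a = 3}))
    (fun a b hab => by
      have h : (a : List ℕ) = b :=
        congrArg (fun t : {w : List ℕ // ∀ a ∈ w, a = 2 ∨ a = 3} => (t : List ℕ)) hab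
      exact Subtype.ext h)
  exact this

theorem V_eq (k d : ℕ) : M.V k d = Submodule.span ℚ (Set.range (fun w : C k d => M.e w)) := by
  rw [V, Set.image_eq_range]

instance (k d : ℕ) : FiniteDimensional ℚ (M.V k d) := by
  rw [V_eq]
  exact FiniteDimensional.span_of_finite ℚ (Set.finite_range _)

theorem finrank_V (k d : ℕ) : finrank ℚ (M.V k d) = (C k d).ncard := by
  have : Fintype (C k d) := Fintype.ofFinite _
  rw [V_eq, finrank_span_eq_card (M.indepC k d), ← Nat.card_coe_set_eq, Nat.card_eq_fintype_card]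

theorem map_V (k d : ℕ) : (M.V k d).map M.per.toLinearMap = Submodule.span ℚ (zeta '' C k d) := by
  rw [V, Submodule.map_span]
  congr 1
  rw [← Set.image_comp]
  refine Set.image_congr fun w hw => ?_
  exact M.per_e w hw.1

omit M in
theorem indep_iff (k d : ℕ) :
    Indep k d ↔ finrank ℚ (Submodule.span ℚ (zeta '' C k d)) = (C k d).ncard := by
  have : Fintype (C k d) := Fintype.ofFinite _
  unfold Indep
  rw [linearIndependent_iff_card_eq_finrank_span, Set.finrank, Set.image_eq_range,
    ← Nat.card_coe_set_eq, Nat.card_eq_fintype_card]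
  exact eq_comm

theorem span_le (k d : ℕ) : finrank ℚ (Submodule.span ℚ (zeta '' C k d)) ≤ (C k d).ncard := by
  rw [← M.map_V, ← M.finrank_V]
  exact map_le _ _

theorem V_mul (k d k' d' : ℕ) : M.V k d * M.V k' d' ≤ M.V (k + k') (d + d') := by
  unfold V
  rw [Submodule.span_mul_span, Submodule.span_le]
  rintro _ ⟨_, ⟨u, hu, rfl⟩, _, ⟨v, hv, rfl⟩, rfl⟩
  exact M.mul k d k' d' u v hu hv

/-- One dependent family has consequences for all larger weights and levels. -/
theorem step (k d k' d' : ℕ) (h : ¬ Indep k d) :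
    finrank ℚ (Submodule.span ℚ (zeta '' C (k + k') (d + d'))) + (C k' d').ncard ≤
      (C (k + k') (d + d')).ncard := by
  rw [indep_iff] at h
  have h1 : finrank ℚ ((M.V k d).map M.per.toLinearMap) < finrank ℚ (M.V k d) := by
    rw [M.map_V, M.finrank_V]
    exact lt_of_le_of_ne (M.span_le k d) h
  obtain ⟨x, hx, hx0, hp⟩ := exists_ker _ _ h1
  have h2 := drop M.per.toLinearMap (M.V k' d') (M.V (k + k') (d + d')) x hx0
    (fun y hy => M.V_mul k d k' d' (Submodule.mul_mem_mul hx hy))
    (fun y _ => by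
      have h3 : M.per x = 0 := hp
      have h4 : M.per (x * y) = 0 := by rw [map_mul, h3, zero_mul]
      exact h4)
  rwa [M.map_V, M.finrank_V, M.finrank_V] at h2

theorem down (K D k d : ℕ) (h : Indep K D) (hk : k ≤ K) (hd : d ≤ D) (h1 : K - k ≠ 1)
    (h2 : Even (K - k) ∨ d < D) : Indep k d := by
  by_contra hn
  have h3 := M.step k d (K - k) (D - d) hn
  rw [Nat.add_sub_cancel' hk, Nat.add_sub_cancel' hd] at h3
  have h4 : (C (K - k) (D - d)).Nonempty := C_nonempty _ _ h1 (by
    rcases h2 with h | h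
    · exact Or.inl h
    · right; omega)
  have h5 : 0 < (C (K - k) (D - d)).ncard := (Set.ncard_pos (C_finite _ _)).2 h4
  rw [indep_iff] at h
  omega

/-- arbitrarily large weights and levels suffice -/
theorem of_unbounded (h : ∀ B, ∃ K D, B ≤ K ∧ B ≤ D ∧ Indep K D) (k : ℕ) : Indep k k := by
  obtain ⟨K, D, hK, hD, hI⟩ := h (k + 2)
  exact M.down K D k k hI (by omega) (by omega) (by omega) (by right; omega)

theorem iff_function (g : ℕ → ℕ) (hg : Tendsto g atTop atTop) :
    (∀ k, Indep k k) ↔ ∃ᶠ K in atTop, Indep K (g K) := by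
  constructor
  · intro h
    exact Frequently.of_forall fun K => (h K).mono (C_top K (g K))
  · intro h
    refine M.of_unbounded fun B => ?_
    have h1 : ∀ᶠ K in atTop, B ≤ K ∧ B ≤ g K :=
      (eventually_ge_atTop B).and (hg.eventually_ge_atTop B)
    obtain ⟨K, hK, hK2⟩ := (h.and_eventually h1).exists
    exact ⟨K, g K, hK2.1, hK2.2, hK⟩

/-- fixed level: infinitely many even weights -/
theorem level_even (D : ℕ) (h : ∃ᶠ K in atTop, Even K ∧ Indep K D) :
    (∀ k, Even k → Indep k D) ∧ ∀ k d, d < D → Indep k d := by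
  constructor
  · intro k hk
    obtain ⟨K, hK, hK2⟩ := (frequently_atTop.1 h) (k + 2)
    exact M.down K D k D hK2.2 (by omega) le_rfl (by omega)
      (Or.inl (by
        obtain ⟨a, ha⟩ := hK2.1
        obtain ⟨b, hb⟩ := hk
        exact ⟨a - b, by omega⟩))
  · intro k d hd
    obtain ⟨K, hK, hK2⟩ := (frequently_atTop.1 h) (k + 2)
    exact M.down K D k d hK2.2 (by omega) hd.le (by omega) (Or.inr hd)

theorem level_odd (D : ℕ) (h : ∃ᶠ K in atTop, Odd K ∧ Indep K D) :
    (∀ k, Odd k → Indep k D) ∧ ∀ k d, d < D → Indep k d := by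
  constructor
  · intro k hk
    obtain ⟨K, hK, hK2⟩ := (frequently_atTop.1 h) (k + 2)
    exact M.down K D k D hK2.2 (by omega) le_rfl (by omega)
      (Or.inl (by
        obtain ⟨a, ha⟩ := hK2.1
        obtain ⟨b, hb⟩ := hk
        exact ⟨a - b, by omega⟩))
  · intro k d hd
    obtain ⟨K, hK, hK2⟩ := (frequently_atTop.1 h) (k + 2)
    exact M.down K D k d hK2.2 (by omega) hd.le (by omega) (Or.inr hd)

end Motivic

end Pool.Agent.Q263.ZO.Hoff
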