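import Pool.Agent.Q263.ZO.Engine

/-!
# Alternating multiple zeta values and multiple Clausen values: zero-one laws
-/

set_option autoImplicit false

open Module Filter Topology

namespace Pool.Agent.Q263.ZO.Lev

/-- the truncated sums `∑_{L ≥ l_1 > ⋯ > l_n > 0} ∏ z_j^(l_j) / l_j^(a_j)` of the list of the pairs
`(a_j, z_j)` -/
noncomputable def tr : List (ℕ × ℂ) → ℕ → ℂ
  | [], _ => 1
  | (p :: s), L => ∑ l ∈ Finset.range L, p.2 ^ (l + 1) / ((l + 1 : ℕ) : ℂ) ^ p.1 * tr s l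

/-- the multiple polylogarithm `Li_{a_1, …, a_n}(z_1, …, z_n)`, the limit of the truncated sums -/
noncomputable def Li (s : List (ℕ × ℂ)) : ℂ := limUnder atTop (tr s)

/-- the span `Z_w(N)` of the cyclotomic multiple zeta values -/
noncomputable def Z (N w : ℕ) : Submodule ℚ ℂ :=
  Submodule.span ℚ {x | ∃ s : List (ℕ × ℂ), s ≠ [] ∧ (∀ p ∈ s, 1 ≤ p.1 ∧ p.2 ^ N = 1) ∧
    (∀ p ∈ s.head?, p ≠ (1, 1)) ∧ (s.map Prod.fst).sum = w ∧ x = Li s}

/-- `e^(πi/3)` -/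
noncomputable def om : ℂ := Complex.exp (Real.pi * Complex.I / 3)

/-- the span `C_w` of the multiple Clausen values `Li_{a_1, …, a_n}(ω, 1, …, 1)` -/
noncomputable def C (w : ℕ) : Submodule ℚ ℂ :=
  Submodule.span ℚ {x | ∃ (a : ℕ) (s : List ℕ), (∀ b ∈ a :: s, 1 ≤ b) ∧ (a :: s).sum = w ∧
    x = Li ((a, om) :: s.map (fun b => (b, 1)))}

/-- The known facts (Deligne and Goncharov, Deligne) on the motivic cyclotomic multiple zeta values
of level `6`: an integral domain `H`, the spaces `W6 w`, `W2 w`, `WC w` of the motivic versions of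
`Z_w(6)`, `Z_w(2)`, `C_w` (weight `w`), multiplicative families, `dim W6 w ≤ F_{2w+2}`,
`dim W2 w = dim WC w = F_{w+1}`, and the period map. -/
structure Model where
  /-- the algebra -/
  H : Type
  [ring : CommRing H]
  [dom : IsDomain H]
  [alg : Algebra ℚ H]
  /-- level `6` -/
  W6 : ℕ → Submodule ℚ H
  /-- level `2` -/
  W2 : ℕ → Submodule ℚ H
  /-- multiple Clausen values -/
  WC : ℕ → Submodule ℚ H
  fin6 : ∀ w, FiniteDimensional ℚ (W6 w)
  le2 : ∀ w, W2 w ≤ W6 w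
  leC : ∀ w, WC w ≤ W6 w
  one6 : 1 ∈ W6 0
  mul6 : ∀ a b x y, x ∈ W6 a → y ∈ W6 b → x * y ∈ W6 (a + b)
  mul2 : ∀ a b x y, x ∈ W2 a → y ∈ W2 b → x * y ∈ W2 (a + b)
  mulC : ∀ a b x y, x ∈ WC a → y ∈ WC b → x * y ∈ WC (a + b)
  rank6 : ∀ w, finrank ℚ (W6 w) ≤ Nat.fib (2 * w + 2)
  rank2 : ∀ w, finrank ℚ (W2 w) = Nat.fib (w + 1)
  rankC : ∀ w, finrank ℚ (WC w) = Nat.fib (w + 1)
  /-- the period map -/
  per : H →ₐ[ℚ] ℂ
  map6 : ∀ w, 1 ≤ w → (W6 w).map per.toLinearMap = Z 6 w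
  map2 : ∀ w, 1 ≤ w → (W2 w).map per.toLinearMap = Z 2 w
  mapC : ∀ w, 1 ≤ w → (WC w).map per.toLinearMap = C w

attribute [instance] Model.ring Model.dom Model.alg Model.fin6

/-- a multiplicative family with Fibonacci dimensions and its image -/
theorem fstep {H : Type} [CommRing H] [IsDomain H] [Algebra ℚ H] (per : H →ₐ[ℚ] ℂ)
    (W : ℕ → Submodule ℚ H) (X : ℕ → Submodule ℚ ℂ) (fin : ∀ w, FiniteDimensional ℚ (W w))
    (mul : ∀ a b x y, x ∈ W a → y ∈ W b → x * y ∈ W (a + b))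
    (rank : ∀ w, finrank ℚ (W w) = Nat.fib (w + 1))
    (map : ∀ w, 1 ≤ w → (W w).map per.toLinearMap = X w) :
    (∀ w, 1 ≤ w → finrank ℚ (X w) ≤ Nat.fib (w + 1)) ∧
    ∀ n N, 1 ≤ n → n ≤ N → finrank ℚ (X n) ≠ Nat.fib (n + 1) →
      finrank ℚ (X N) + Nat.fib (N - n + 1) ≤ Nat.fib (N + 1) := by
  have hle : ∀ w, 1 ≤ w → finrank ℚ (X w) ≤ Nat.fib (w + 1) := by
    intro w hw
    haveI := fin w
    rw [← map w hw, ← rank w]
    exact map_le _ _
  refine ⟨hle, fun n N hn hN h => ?_⟩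
  haveI := fin n
  haveI := fin N
  have h1 : finrank ℚ ((W n).map per.toLinearMap) < finrank ℚ (W n) := by
    rw [map n hn, rank n]
    exact lt_of_le_of_ne (hle n hn) h
  obtain ⟨x, hx, hx0, hp⟩ := exists_ker _ _ h1
  have h2 := drop per.toLinearMap (W (N - n)) (W N) x hx0
    (fun y hy => by
      have := mul n (N - n) x y hx hy
      rwa [Nat.add_sub_cancel' hN] at this)
    (fun y _ => by
      have h3 : per x = 0 := hp
      have h4 : per (x * y) = 0 := by rw [map_mul, h3, zero_mul]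
      exact h4)
  rwa [map N (by omega), rank (N - n), rank N] at h2

theorem fib_le (m n : ℕ) : Nat.fib (m + n + 1) ≤ 2 ^ n * Nat.fib (m + 1) := by
  induction n with
  | zero => simp
  | succ n ih =>
    have h1 : Nat.fib (m + (n + 1) + 1) = Nat.fib (m + n) + Nat.fib (m + n + 1) := by
      rw [show m + (n + 1) + 1 = m + n + 2 by ring, Nat.fib_add_two]
    have h2 : Nat.fib (m + n) ≤ Nat.fib (m + n + 1) := Nat.fib_le_fib_succ
    calc Nat.fib (m + (n + 1) + 1) ≤ 2 * Nat.fib (m + n + 1) := by omega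
      _ ≤ 2 * (2 ^ n * Nat.fib (m + 1)) := Nat.mul_le_mul_left 2 ih
      _ = 2 ^ (n + 1) * Nat.fib (m + 1) := by ring

/-- consequences of the basic inequality -/
theorem laws (h : ℕ → ℕ)
    (hs : ∀ n N, 1 ≤ n → n ≤ N → h n ≠ Nat.fib (n + 1) → h N + Nat.fib (N - n + 1) ≤ Nat.fib (N + 1)) :
    (∀ N, h N = Nat.fib (N + 1) → ∀ n, 1 ≤ n → n ≤ N → h n = Nat.fib (n + 1)) ∧
    ((∀ n, 1 ≤ n → h n = Nat.fib (n + 1)) ↔ ∃ᶠ N in atTop, h N = Nat.fib (N + 1)) ∧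
    ((∀ n, 1 ≤ n → h n = Nat.fib (n + 1)) ↔
      ∀ ε : ℝ, 0 < ε → ∃ᶠ N in atTop, (1 - ε) * Nat.fib (N + 1) < h N) ∧
    (∀ n N, 1 ≤ n → n ≤ N → Nat.fib (N + 1) < h N + Nat.fib (N - n + 1) → h n = Nat.fib (n + 1)) := by
  have h1 : ∀ N, h N = Nat.fib (N + 1) → ∀ n, 1 ≤ n → n ≤ N → h n = Nat.fib (n + 1) := by
    intro N hN n hn hnN
    by_contra hne
    have h2 := hs n N hn hnN hne
    have h3 : 0 < Nat.fib (N - n + 1) := Nat.fib_pos.2 (by omega)
    omega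
  refine ⟨h1, ⟨fun h2 => ?_, fun h2 n hn => ?_⟩, ⟨fun h2 ε hε => ?_, fun h2 n hn => ?_⟩, ?_⟩
  · rw [frequently_atTop]
    exact fun a => ⟨a + 1, by omega, h2 _ (by omega)⟩
  · obtain ⟨N, hN, hN2⟩ := (frequently_atTop.1 h2) n
    exact h1 N hN2 n hn hN
  · rw [frequently_atTop]
    refine fun a => ⟨a + 1, by omega, ?_⟩
    rw [h2 _ (by omega)]
    have h3 : 0 < Nat.fib (a + 1 + 1) := Nat.fib_pos.2 (by omega)
    have h4 : (1 : ℝ) ≤ Nat.fib (a + 1 + 1) := by exact_mod_cast h3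
    nlinarith
  · by_contra hne
    obtain ⟨N, hN, hN2⟩ := (frequently_atTop.1 (h2 ((2 : ℝ) ^ n)⁻¹ (by positivity))) n
    have h3 := hs n N hn hN hne
    have h4 := fib_le (N - n) n
    rw [Nat.sub_add_cancel hN] at h4
    have h5 : (h N : ℝ) + Nat.fib (N - n + 1) ≤ Nat.fib (N + 1) := by exact_mod_cast h3
    have h6 : (Nat.fib (N + 1) : ℝ) ≤ 2 ^ n * Nat.fib (N - n + 1) := by exact_mod_cast h4
    have h7 : ((2 : ℝ) ^ n)⁻¹ * Nat.fib (N + 1) ≤ Nat.fib (N - n + 1) := by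
      rw [inv_mul_le_iff₀ (by positivity)]
      exact h6
    linarith
  · intro n N hn hN h2
    by_contra hne
    have := hs n N hn hN hne
    omega

namespace Model

variable (M : Model)

include M

theorem fin2 (w : ℕ) : FiniteDimensional ℚ (M.W2 w) := Submodule.finiteDimensional_of_le (M.le2 w)

theorem finC (w : ℕ) : FiniteDimensional ℚ (M.WC w) := Submodule.finiteDimensional_of_le (M.leC w)

theorem step2 : (∀ w, 1 ≤ w → finrank ℚ (Z 2 w) ≤ Nat.fib (w + 1)) ∧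
    ∀ n N, 1 ≤ n → n ≤ N → finrank ℚ (Z 2 n) ≠ Nat.fib (n + 1) →
      finrank ℚ (Z 2 N) + Nat.fib (N - n + 1) ≤ Nat.fib (N + 1) := fstep M.per M.W2 (Z 2) M.fin2 M.mul2 M.rank2 M.map2

theorem stepC : (∀ w, 1 ≤ w → finrank ℚ (C w) ≤ Nat.fib (w + 1)) ∧
    ∀ n N, 1 ≤ n → n ≤ N → finrank ℚ (C n) ≠ Nat.fib (n + 1) →
      finrank ℚ (C N) + Nat.fib (N - n + 1) ≤ Nat.fib (N + 1) := fstep M.per M.WC C M.finC M.mulC M.rankC M.mapC

/-- level `6` decides the two others -/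
theorem of_six (N : ℕ) (h6 : finrank ℚ (Z 6 N) = Nat.fib (2 * N + 2)) (n : ℕ) (hn : 1 ≤ n)
    (hN : n ≤ N) : finrank ℚ (Z 2 n) = Nat.fib (n + 1) ∧ finrank ℚ (C n) = Nat.fib (n + 1) := by
  have key : ∀ x ∈ M.W6 n, x ≠ 0 → M.per x ≠ 0 := by
    intro x hx hx0 hp
    -- a nonzero element of weight one of the Clausen algebra
    have hC : ∀ m, ∃ y ∈ M.W6 m, y ≠ 0 := by
      intro m
      haveI := M.finC m
      have h1 : 0 < finrank ℚ (M.WC m) := by
        rw [M.rankC]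
        exact Nat.fib_pos.2 (by omega)
      obtain ⟨y, hy⟩ := Module.finrank_pos_iff_exists_ne_zero.1 h1
      exact ⟨y, M.leC m y.2, fun h0 => hy (Subtype.ext h0)⟩
    have h2 := drop M.per.toLinearMap (M.W6 (N - n)) (M.W6 N) x hx0
      (fun y hy => by
        have := M.mul6 n (N - n) x y hx hy
        rwa [Nat.add_sub_cancel' hN] at this)
      (fun y _ => by
        have h4 : M.per (x * y) = 0 := by rw [map_mul, hp, zero_mul]
        exact h4)
    rw [M.map6 N (by omega), h6] at h2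
    have h3 := M.rank6 N
    obtain ⟨y, hy, hy0⟩ := hC (N - n)
    have h4 : 0 < finrank ℚ (M.W6 (N - n)) :=
      Module.finrank_pos_iff_exists_ne_zero.2 ⟨⟨y, hy⟩, fun h0 => hy0 (congrArg Subtype.val h0)⟩
    omega
  constructor
  · by_contra hne
    haveI := M.fin2 n
    have h1 : finrank ℚ ((M.W2 n).map M.per.toLinearMap) < finrank ℚ (M.W2 n) := by
      rw [M.map2 n hn, M.rank2 n]
      exact lt_of_le_of_ne (M.step2.1 n hn) hne
    obtain ⟨x, hx, hx0, hp⟩ := exists_ker _ _ h1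
    exact key x (M.le2 n hx) hx0 hp
  · by_contra hne
    haveI := M.finC n
    have h1 : finrank ℚ ((M.WC n).map M.per.toLinearMap) < finrank ℚ (M.WC n) := by
      rw [M.mapC n hn, M.rankC n]
      exact lt_of_le_of_ne (M.stepC.1 n hn) hne
    obtain ⟨x, hx, hx0, hp⟩ := exists_ker _ _ h1
    exact key x (M.leC n hx) hx0 hp

end Model

end Pool.Agent.Q263.ZO.Lev
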