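import Pool.Agent.Q263.ZO.Engine
import Pool.Agent.H447R2.MZ.Dich

/-!
# Pairs of a real multiple zeta value and its analogue in another field
-/

set_option autoImplicit false

open Module Filter Topology

namespace Pool.Agent.Q263.ZO.Pairs

open Pool.Agent.H447R2.MZ

/-- the real multiple zeta value -/
noncomputable def zeta (s : List ℕ) : ℝ :=
  ∑' m : {m : Fin s.length → ℕ // StrictAnti m ∧ ∀ i, 1 ≤ m i},
    ∏ i, (((m.1 i : ℕ) : ℝ) ^ (s.get i))⁻¹

theorem zeta_eq (s : List ℕ) (hs : Adm s) : zeta s = val s := by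
  have hk : Adm (List.ofFn s.get) := by rw [List.ofFn_get]; exact hs
  have := (hasSum_val s.length s.get hk).tsum_eq
  rw [List.ofFn_get] at this
  exact this

theorem Adm_nil : Adm [] := ⟨by simp, by simp⟩

theorem Adm_two : Adm [2] := ⟨by simp, by
  intro b t hb
  simp only [List.cons.injEq] at hb
  omega⟩

theorem val_two : val [2] = Real.pi ^ 2 / 6 := by
  rw [← (val_single 2 le_rfl).tsum_eq, zeta_two]

theorem val_nil : val [] = 1 := by
  have h1 := tendsto_H [] Adm_nil
  have h2 : Tendsto (H []) atTop (𝓝 1) := by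
    have : H [] = fun _ => 1 := by funext N; exact H_nil N
    rw [this]
    exact tendsto_const_nhds
  exact tendsto_nhds_unique h1 h2

section

variable {K : Type} [Field K] [Algebra ℚ K]

/-- the known properties of the `p`-adic multiple zeta values which are used: the stuffle product and
`ζ_p(2) = 0` -/
structure Stuffle (z : List ℕ → K) : Prop where
  one : z [] = 1
  mul : ∀ s t, Adm s → Adm t → z s * z t = ((st s t).map z).sum
  two : z [2] = 0

/-- the span of the pairs `(ζ(s), ζ_p(s))` of weight at most `N` -/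
noncomputable def B (z : List ℕ → K) (N : ℕ) : Submodule ℚ (ℝ × K) :=
  Submodule.span ℚ {x | ∃ s : List ℕ, Adm s ∧ s.sum ≤ N ∧ x = (zeta s, z s)}

/-- the span of the real multiple zeta values of weight at most `N` -/
noncomputable def R (N : ℕ) : Submodule ℚ ℝ :=
  Submodule.span ℚ {x | ∃ s : List ℕ, Adm s ∧ s.sum ≤ N ∧ x = zeta s}

/-- the span of the `p`-adic multiple zeta values of weight at most `N` -/
noncomputable def Q (z : List ℕ → K) (N : ℕ) : Submodule ℚ K :=
  Submodule.span ℚ {x | ∃ s : List ℕ, Adm s ∧ s.sum ≤ N ∧ x = z s}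

/-- all relations between real multiple zeta values are satisfied by the `z s` -/
def Holds (z : List ℕ → K) : Prop :=
  ∀ (m : ℕ) (s : Fin m → List ℕ), (∀ i, Adm (s i)) → ∀ f : MvPolynomial (Fin m) ℚ,
    MvPolynomial.aeval (fun i => zeta (s i)) f = 0 → MvPolynomial.aeval (fun i => z (s i)) f = 0

theorem map_fst (z : List ℕ → K) (N : ℕ) : (B z N).map (LinearMap.fst ℚ ℝ K) = R N := by
  rw [B, R, Submodule.map_span]
  congr 1
  ext x
  constructor
  · rintro ⟨_, ⟨s, h1, h2, rfl⟩, rfl⟩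
    exact ⟨s, h1, h2, rfl⟩
  · rintro ⟨s, h1, h2, rfl⟩
    exact ⟨_, ⟨s, h1, h2, rfl⟩, rfl⟩

theorem map_snd (z : List ℕ → K) (N : ℕ) : (B z N).map (LinearMap.snd ℚ ℝ K) = Q z N := by
  rw [B, Q, Submodule.map_span]
  congr 1
  ext x
  constructor
  · rintro ⟨_, ⟨s, h1, h2, rfl⟩, rfl⟩
    exact ⟨s, h1, h2, rfl⟩
  · rintro ⟨s, h1, h2, rfl⟩
    exact ⟨_, ⟨s, h1, h2, rfl⟩, rfl⟩

theorem index_finite (N : ℕ) : {s : List ℕ | Adm s ∧ s.sum ≤ N}.Finite := by
  have h : {s : List ℕ | Adm s ∧ s.sum ≤ N} ⊆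
      ⋃ k ∈ Finset.range (N + 1), Set.range (fun c : Composition k => c.blocks) := by
    rintro s ⟨hs, hN⟩
    simp only [Set.mem_iUnion]
    exact ⟨s.sum, Finset.mem_range.2 (by omega), ⟨s, fun {i} hi => hs.1 i hi, rfl⟩, rfl⟩
  refine Set.Finite.subset ?_ h
  exact Set.Finite.biUnion (Finset.finite_toSet _) fun k _ => Set.finite_range _

instance B_finite (z : List ℕ → K) (N : ℕ) : FiniteDimensional ℚ (B z N) := by
  refine FiniteDimensional.span_of_finite ℚ ?_
  refine ((index_finite N).image fun s => (zeta s, z s)).subset ?_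
  rintro x ⟨s, h1, h2, rfl⟩
  exact ⟨s, ⟨h1, h2⟩, rfl⟩

instance Q_finite (z : List ℕ → K) (N : ℕ) : FiniteDimensional ℚ (Q z N) := by
  rw [← map_snd]
  infer_instance

instance R_finite (N : ℕ) : FiniteDimensional ℚ (R N) := by
  rw [← map_fst (K := ℚ) (fun _ => 0) N]
  infer_instance

theorem card_index (N : ℕ) : (index_finite N).toFinset.card ≤ 2 ^ (N + 1) := by
  classical
  have h : (index_finite N).toFinset ⊆ (Finset.range (N + 1)).biUnion fun k =>
      (Finset.univ : Finset (Composition k)).image fun c => c.blocks := by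
    intro s hs
    rw [Set.Finite.mem_toFinset] at hs
    rw [Finset.mem_biUnion]
    refine ⟨s.sum, Finset.mem_range.2 (by have := hs.2; omega), ?_⟩
    rw [Finset.mem_image]
    exact ⟨⟨s, fun {i} hi => hs.1.1 i hi, rfl⟩, Finset.mem_univ _, rfl⟩
  refine (Finset.card_le_card h).trans (Finset.card_biUnion_le.trans ?_)
  have h2 : ∀ k ∈ Finset.range (N + 1),
      ((Finset.univ : Finset (Composition k)).image fun c => c.blocks).card ≤ 2 ^ k := by
    intro k _
    refine Finset.card_image_le.trans ?_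
    rw [Finset.card_univ, composition_card]
    exact Nat.pow_le_pow_right (by norm_num) (by omega)
  refine (Finset.sum_le_sum h2).trans ?_
  have := Nat.geomSum_eq (le_refl 2) (N + 1)
  rw [this, show 2 - 1 = 1 from rfl, Nat.div_one]
  exact Nat.sub_le _ _

theorem finrank_Q_le (z : List ℕ → K) (N : ℕ) : finrank ℚ (Q z N) ≤ 2 ^ (N + 1) := by
  classical
  have e : {x | ∃ s : List ℕ, Adm s ∧ s.sum ≤ N ∧ x = z s} =
      (((index_finite N).toFinset.image z : Finset K) : Set K) := by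
    ext x
    rw [Finset.coe_image, Set.Finite.coe_toFinset]
    constructor
    · rintro ⟨s, h1, h2, rfl⟩
      exact ⟨s, ⟨h1, h2⟩, rfl⟩
    · rintro ⟨s, ⟨h1, h2⟩, rfl⟩
      exact ⟨s, h1, h2, rfl⟩
  rw [Q, e]
  exact (finrank_span_finset_le_card _).trans (Finset.card_image_le.trans (card_index N))

variable {z : List ℕ → K}

theorem mem_one (hz : Stuffle z) (N : ℕ) : (1 : ℝ × K) ∈ B z N := by
  refine Submodule.subset_span ⟨[], Adm_nil, by simp, ?_⟩
  rw [zeta_eq _ Adm_nil, val_nil, hz.one]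
  rfl

theorem B_mono (z : List ℕ → K) {M N : ℕ} (h : M ≤ N) : B z M ≤ B z N := by
  refine Submodule.span_mono ?_
  rintro x ⟨s, h1, h2, rfl⟩
  exact ⟨s, h1, h2.trans h, rfl⟩

theorem B_mul (hz : Stuffle z) {M N : ℕ} {x y : ℝ × K} (hx : x ∈ B z M) (hy : y ∈ B z N) :
    x * y ∈ B z (M + N) := by
  have h : B z M * B z N ≤ B z (M + N) := by
    unfold B
    rw [Submodule.span_mul_span, Submodule.span_le]
    rintro _ ⟨_, ⟨s, h1, h2, rfl⟩, _, ⟨t, h3, h4, rfl⟩, rfl⟩
    simp only [SetLike.mem_coe]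
    have e : (zeta s, z s) * (zeta t, z t) = ((st s t).map fun u => (zeta u, z u)).sum := by
      have key : ∀ L : List (List ℕ), (∀ u ∈ L, Adm u) →
          (L.map fun u => ((zeta u, z u) : ℝ × K)).sum = ((L.map val).sum, (L.map z).sum) := by
        intro L hL
        induction L with
        | nil => rfl
        | cons u L ih =>
          rw [List.map_cons, List.sum_cons, ih fun v hv => hL v (List.mem_cons_of_mem _ hv),
            List.map_cons, List.sum_cons, List.map_cons, List.sum_cons, zeta_eq u (hL u (by simp))]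
          rfl
      rw [key _ (st_adm s t h1 h3), ← val_mul s t h1 h3, ← hz.mul s t h1 h3, zeta_eq s h1, zeta_eq t h3]
      rfl
    rw [e]
    refine list_sum_mem fun w hw => ?_
    rw [List.mem_map] at hw
    obtain ⟨u, hu, rfl⟩ := hw
    exact Submodule.subset_span ⟨u, st_adm s t h1 h3 u hu, by rw [st_sum s t u hu]; omega, rfl⟩
  exact h (Submodule.mul_mem_mul hx hy)

theorem pi_mem (hz : Stuffle z) {N : ℕ} (h : 2 ≤ N) : ((Real.pi ^ 2, 0) : ℝ × K) ∈ B z N := by
  have h1 : (zeta [2], z [2]) ∈ B z N := Submodule.subset_span ⟨[2], Adm_two, by simpa using h, rfl⟩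
  have h2 := Submodule.smul_mem (B z N) (6 : ℚ) h1
  have e : (6 : ℚ) • ((zeta [2], z [2]) : ℝ × K) = (Real.pi ^ 2, 0) := by
    rw [zeta_eq _ Adm_two, val_two, hz.two]
    ext
    · change (6 : ℚ) • (Real.pi ^ 2 / 6) = Real.pi ^ 2
      rw [Rat.smul_def]
      push_cast
      ring
    · simp
  rwa [e] at h2

theorem exists_fst {N : ℕ} {x : ℝ} (hx : x ∈ R N) : ∃ y, ((x, y) : ℝ × K) ∈ B z N := by
  rw [← map_fst z N] at hx
  obtain ⟨⟨a, b⟩, h1, rfl⟩ := hx
  exact ⟨b, h1⟩

theorem exists_snd {N : ℕ} {y : K} (hy : y ∈ Q z N) : ∃ x, ((x, y) : ℝ × K) ∈ B z N := by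
  rw [← map_snd z N] at hy
  obtain ⟨⟨a, b⟩, h1, rfl⟩ := hy
  exact ⟨a, h1⟩

theorem aeval_mem (hz : Stuffle z) (m : ℕ) (s : Fin m → List ℕ) (hs : ∀ i, Adm (s i))
    (f : MvPolynomial (Fin m) ℚ) : ∃ N,
      ((MvPolynomial.aeval (fun i => zeta (s i)) f, MvPolynomial.aeval (fun i => z (s i)) f) : ℝ × K) ∈
        B z N := by
  induction f using MvPolynomial.induction_on with
  | C a =>
    refine ⟨0, ?_⟩
    have h := Submodule.smul_mem (B z 0) a (mem_one hz 0)
    have e : a • (1 : ℝ × K) = (MvPolynomial.aeval (fun i => zeta (s i)) (MvPolynomial.C a),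
        MvPolynomial.aeval (fun i => z (s i)) (MvPolynomial.C a)) := by
      rw [MvPolynomial.aeval_C, MvPolynomial.aeval_C, Algebra.algebraMap_eq_smul_one,
        Algebra.algebraMap_eq_smul_one]
      rfl
    rwa [e] at h
  | add f g hf hg =>
    obtain ⟨M, hM⟩ := hf
    obtain ⟨N, hN⟩ := hg
    refine ⟨max M N, ?_⟩
    have h := Submodule.add_mem _ (B_mono z (le_max_left M N) hM) (B_mono z (le_max_right M N) hN)
    rw [map_add, map_add]
    exact h
  | mul_X f i hf =>
    obtain ⟨M, hM⟩ := hf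
    refine ⟨M + (s i).sum, ?_⟩
    have h1 : (zeta (s i), z (s i)) ∈ B z (s i).sum :=
      Submodule.subset_span ⟨s i, hs i, le_rfl, rfl⟩
    have h := B_mul hz hM h1
    rw [map_mul, map_mul, MvPolynomial.aeval_X, MvPolynomial.aeval_X]
    exact h

/-- The statement on polynomial relations in terms of pairs. -/
theorem holds_iff (hz : Stuffle z) : Holds z ↔ ∀ N, ∀ y, ((0, y) : ℝ × K) ∈ B z N → y = 0 := by
  constructor
  · intro h N y hy
    -- a linear combination of finitely many values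
    have key : ∀ x ∈ B z N, ∃ (m : ℕ) (s : Fin m → List ℕ) (f : MvPolynomial (Fin m) ℚ),
        (∀ i, Adm (s i)) ∧ x = (MvPolynomial.aeval (fun i => zeta (s i)) f,
          MvPolynomial.aeval (fun i => z (s i)) f) := by
      intro x hx
      have hx' : x ∈ Submodule.span ℚ (Set.range fun s : {s : List ℕ // Adm s ∧ s.sum ≤ N} =>
          ((zeta s, z s) : ℝ × K)) := by
        have e : {x : ℝ × K | ∃ s : List ℕ, Adm s ∧ s.sum ≤ N ∧ x = (zeta s, z s)} =
            Set.range fun s : {s : List ℕ // Adm s ∧ s.sum ≤ N} => ((zeta s, z s) : ℝ × K) := by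
          ext x
          constructor
          · rintro ⟨s, h1, h2, rfl⟩
            exact ⟨⟨s, h1, h2⟩, rfl⟩
          · rintro ⟨s, rfl⟩
            exact ⟨s, s.2.1, s.2.2, rfl⟩
        rw [← e]
        exact hx
      haveI : Finite {s : List ℕ // Adm s ∧ s.sum ≤ N} := (index_finite N).to_subtype
      haveI : Fintype {s : List ℕ // Adm s ∧ s.sum ≤ N} := Fintype.ofFinite _
      obtain ⟨c, rfl⟩ := (Submodule.mem_span_range_iff_exists_fun ℚ).1 hx'
      let e := Fintype.equivFin {s : List ℕ // Adm s ∧ s.sum ≤ N}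
      refine ⟨_, fun i => (e.symm i : List ℕ), ∑ i, MvPolynomial.C (c (e.symm i)) * MvPolynomial.X i,
        fun i => (e.symm i).2.1, ?_⟩
      rw [map_sum, map_sum]
      have e1 : ∀ i, ((MvPolynomial.aeval fun i => zeta (e.symm i : List ℕ))
          (MvPolynomial.C (c (e.symm i)) * MvPolynomial.X i) : ℝ) =
            c (e.symm i) • zeta (e.symm i : List ℕ) := by
        intro i
        rw [map_mul, MvPolynomial.aeval_C, MvPolynomial.aeval_X, Algebra.smul_def]
      have e2 : ∀ i, ((MvPolynomial.aeval fun i => z (e.symm i : List ℕ))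
          (MvPolynomial.C (c (e.symm i)) * MvPolynomial.X i) : K) =
            c (e.symm i) • z (e.symm i : List ℕ) := by
        intro i
        rw [map_mul, MvPolynomial.aeval_C, MvPolynomial.aeval_X, Algebra.smul_def]
      rw [Finset.sum_congr rfl fun i _ => e1 i, Finset.sum_congr rfl fun i _ => e2 i]
      rw [← e.symm.sum_comp fun s => c s • ((zeta s, z s) : ℝ × K)]
      ext
      · rw [Prod.fst_sum]
        rfl
      · rw [Prod.snd_sum]
        rfl
    obtain ⟨m, s, f, hs, hf⟩ := key _ hy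
    have h1 := h m s hs f (congrArg Prod.fst hf).symm
    have h2 : y = MvPolynomial.aeval (fun i => z (s i)) f := congrArg Prod.snd hf
    rw [h2]
    exact h1
  · intro h m s hs f hf
    obtain ⟨N, hN⟩ := aeval_mem hz m s hs f
    rw [hf] at hN
    exact h N _ hN

/-- If some relation fails, then the pairs are as independent as possible. -/
theorem all_pairs (hz : Stuffle z) {n : ℕ} {y : K} (hy : ((0, y) : ℝ × K) ∈ B z n) (N : ℕ) (x : ℝ)
    (hx : x ∈ R N) (y' : K) (hy' : y' ∈ Q z N) :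
    ((Real.pi ^ 2 * x, y * y') : ℝ × K) ∈ B z (max 2 n + N) := by
  obtain ⟨a, ha⟩ := exists_fst (z := z) hx
  obtain ⟨b, hb⟩ := exists_snd hy'
  have h1 := B_mul hz (pi_mem hz (le_max_left 2 n)) ha
  have h2 := B_mul hz (B_mono z (le_max_right 2 n) hy) hb
  have h3 := Submodule.add_mem _ h1 h2
  have e : ((Real.pi ^ 2, 0) : ℝ × K) * (x, a) + (0, y) * (b, y') = (Real.pi ^ 2 * x, y * y') := by
    ext <;> simp
  rwa [e] at h3

/-- the space of pairs is larger than the real space by the kernel -/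
theorem dim_real (hz : Stuffle z) {n : ℕ} {y : K} (hy : ((0, y) : ℝ × K) ∈ B z n) (hy0 : y ≠ 0) (N : ℕ) :
    finrank ℚ (R (n + N)) + finrank ℚ (Q z N) ≤ finrank ℚ (B z (n + N)) := by
  rw [← map_fst z (n + N)]
  have e : (B z (n + N)).map (LinearMap.fst ℚ ℝ K) =
      LinearMap.range ((LinearMap.fst ℚ ℝ K).domRestrict (B z (n + N))) := by
    rw [LinearMap.range_domRestrict]
  rw [e, ← ((LinearMap.fst ℚ ℝ K).domRestrict (B z (n + N))).finrank_range_add_finrank_ker]
  refine Nat.add_le_add_left ?_ _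
  have hmem : ∀ b : Q z N, ((0, y * (b : K)) : ℝ × K) ∈ B z (n + N) := by
    intro b
    obtain ⟨a, ha⟩ := exists_snd b.2
    have h := B_mul hz hy ha
    have e : ((0, y) : ℝ × K) * (a, (b : K)) = (0, y * b) := by
      ext <;> simp
    rwa [e] at h
  let g : Q z N →ₗ[ℚ] B z (n + N) := LinearMap.codRestrict _
    (((LinearMap.inr ℚ ℝ K) ∘ₗ (LinearMap.mulLeft ℚ y)).domRestrict (Q z N)) hmem
  let f : Q z N →ₗ[ℚ] LinearMap.ker ((LinearMap.fst ℚ ℝ K).domRestrict (B z (n + N))) :=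
    LinearMap.codRestrict _ g (fun b => by
      rw [LinearMap.mem_ker]
      rfl)
  refine LinearMap.finrank_le_finrank_of_injective (f := f) ?_
  intro a b hab
  have h3 : y * (a : K) = y * (b : K) :=
    congrArg (fun t => ((t : B z (n + N)) : ℝ × K).2) (congrArg Subtype.val hab)
  exact Subtype.ext (mul_left_cancel₀ hy0 h3)

theorem dim_padic (hz : Stuffle z) (N : ℕ) :
    finrank ℚ (Q z (2 + N)) + finrank ℚ (R N) ≤ finrank ℚ (B z (2 + N)) := by
  rw [← map_snd z (2 + N)]
  have e : (B z (2 + N)).map (LinearMap.snd ℚ ℝ K) =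
      LinearMap.range ((LinearMap.snd ℚ ℝ K).domRestrict (B z (2 + N))) := by
    rw [LinearMap.range_domRestrict]
  rw [e, ← ((LinearMap.snd ℚ ℝ K).domRestrict (B z (2 + N))).finrank_range_add_finrank_ker]
  refine Nat.add_le_add_left ?_ _
  have hmem : ∀ b : R N, ((Real.pi ^ 2 * (b : ℝ), 0) : ℝ × K) ∈ B z (2 + N) := by
    intro b
    obtain ⟨a, ha⟩ := exists_fst (z := z) b.2
    have h := B_mul hz (pi_mem hz (le_refl 2)) ha
    have e : ((Real.pi ^ 2, 0) : ℝ × K) * ((b : ℝ), a) = (Real.pi ^ 2 * b, 0) := by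
      ext <;> simp
    rwa [e] at h
  let g : R N →ₗ[ℚ] B z (2 + N) := LinearMap.codRestrict _
    (((LinearMap.inl ℚ ℝ K) ∘ₗ (LinearMap.mulLeft ℚ (Real.pi ^ 2))).domRestrict (R N)) hmem
  let f : R N →ₗ[ℚ] LinearMap.ker ((LinearMap.snd ℚ ℝ K).domRestrict (B z (2 + N))) :=
    LinearMap.codRestrict _ g (fun b => by
      rw [LinearMap.mem_ker]
      rfl)
  refine LinearMap.finrank_le_finrank_of_injective (f := f) ?_
  intro a b hab
  have h3 : Real.pi ^ 2 * (a : ℝ) = Real.pi ^ 2 * (b : ℝ) :=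
    congrArg (fun t => ((t : B z (2 + N)) : ℝ × K).1) (congrArg Subtype.val hab)
  exact Subtype.ext (mul_left_cancel₀ (pow_ne_zero 2 Real.pi_ne_zero) h3)

/-- if the relations carry over, the two dimensions agree -/
theorem dim_eq (hz : Stuffle z) (h : Holds z) (N : ℕ) : finrank ℚ (B z N) = finrank ℚ (R N) := by
  rw [← map_fst z N]
  have e : (B z N).map (LinearMap.fst ℚ ℝ K) =
      LinearMap.range ((LinearMap.fst ℚ ℝ K).domRestrict (B z N)) := by
    rw [LinearMap.range_domRestrict]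
  rw [e, LinearMap.finrank_range_of_inj]
  rw [← LinearMap.ker_eq_bot, LinearMap.ker_eq_bot']
  rintro ⟨⟨a, b⟩, hab⟩ h0
  have ha : a = 0 := h0
  subst ha
  have hb := (holds_iff hz).1 h N b hab
  subst hb
  rfl

theorem one_le_Q (hz : Stuffle z) (N : ℕ) : 1 ≤ finrank ℚ (Q z N) := by
  rw [Nat.one_le_iff_ne_zero]
  intro h
  have h1 : Q z N = ⊥ := Submodule.finrank_eq_zero.1 h
  have h2 : (1 : K) ∈ Q z N := by
    rw [← map_snd]
    exact ⟨1, mem_one hz N, rfl⟩
  rw [h1, Submodule.mem_bot] at h2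
  exact one_ne_zero h2

theorem not_tendsto (hz : Stuffle z) {n : ℕ} {y : K} (hy : ((0, y) : ℝ × K) ∈ B z n) (hy0 : y ≠ 0) :
    ¬ Tendsto (fun N => ((finrank ℚ (B z N) : ℝ) - finrank ℚ (R N)) / finrank ℚ (Q z N)) atTop (𝓝 0) := by
  intro ht
  have hε : (0 : ℝ) < ((2 : ℝ) ^ (n + 1))⁻¹ := by positivity
  have h1 := ht.eventually (gt_mem_nhds hε)
  rw [eventually_atTop] at h1
  obtain ⟨N₀, hN₀⟩ := h1
  have key : ∀ N, N₀ ≤ N → 2 ^ (n + 1) * finrank ℚ (Q z N) ≤ finrank ℚ (Q z (n + N)) := by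
    intro N hN
    have h2 := hN₀ (n + N) (by omega)
    have h3 := dim_real hz hy hy0 N
    have hp : (0 : ℝ) < finrank ℚ (Q z (n + N)) := by exact_mod_cast one_le_Q hz (n + N)
    rw [div_lt_iff₀ hp] at h2
    have h4 : (finrank ℚ (R (n + N)) : ℝ) + finrank ℚ (Q z N) ≤ finrank ℚ (B z (n + N)) := by
      exact_mod_cast h3
    have h5 : (finrank ℚ (Q z N) : ℝ) ≤ ((2 : ℝ) ^ (n + 1))⁻¹ * finrank ℚ (Q z (n + N)) := by linarith
    have h6 : (2 : ℝ) ^ (n + 1) * finrank ℚ (Q z N) ≤ finrank ℚ (Q z (n + N)) := by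
      have := mul_le_mul_of_nonneg_left h5 (show (0 : ℝ) ≤ 2 ^ (n + 1) by positivity)
      rwa [← mul_assoc, mul_inv_cancel₀ (by positivity), one_mul] at this
    exact_mod_cast h6
  have iter : ∀ j, 2 ^ ((n + 1) * j) ≤ finrank ℚ (Q z (n * j + N₀)) := by
    intro j
    induction j with
    | zero => simpa using one_le_Q hz N₀
    | succ j ih =>
      have h2 := key (n * j + N₀) (by omega)
      calc 2 ^ ((n + 1) * (j + 1)) = 2 ^ (n + 1) * 2 ^ ((n + 1) * j) := by ring
        _ ≤ 2 ^ (n + 1) * finrank ℚ (Q z (n * j + N₀)) := Nat.mul_le_mul_left _ ih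
        _ ≤ finrank ℚ (Q z (n + (n * j + N₀))) := h2
        _ = finrank ℚ (Q z (n * (j + 1) + N₀)) := by
            rw [show n + (n * j + N₀) = n * (j + 1) + N₀ by ring]
  have h7 := iter (N₀ + 2)
  have h8 := finrank_Q_le z (n * (N₀ + 2) + N₀)
  have h9 : 2 ^ ((n + 1) * (N₀ + 2)) ≤ 2 ^ (n * (N₀ + 2) + N₀ + 1) := h7.trans h8
  have h10 := (Nat.pow_le_pow_iff_right (by norm_num : 1 < 2)).1 h9
  have e : (n + 1) * (N₀ + 2) = n * (N₀ + 2) + N₀ + 2 := by ring
  omega

end

end Pool.Agent.Q263.ZO.Pairs
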