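import Pool.Agent.Q263.ZO.Engine

/-!
# Hilbert series of enveloping algebras: one equality decides the smaller weights
-/

set_option autoImplicit false

open PowerSeries Finset

namespace Pool.Agent.Q263.ZO.HS

/-- the power series `1 / (1 - x^i) = 1 + x^i + x^(2i) + ⋯` -/
noncomputable def g (i : ℕ) : ℕ⟦X⟧ := PowerSeries.mk fun n => if i ∣ n then 1 else 0

theorem coeff_g (i n : ℕ) : coeff n (g i) = if i ∣ n then 1 else 0 := by rw [g, coeff_mk]

theorem g_eq (i : ℕ) (hi : 1 ≤ i) : g i = 1 + X ^ i * g i := by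
  ext n
  rw [map_add, coeff_one, coeff_X_pow_mul', coeff_g]
  rcases Nat.eq_zero_or_pos n with rfl | hn
  · rw [if_pos (dvd_zero i), if_pos rfl, if_neg (by omega)]
    rfl
  · rw [if_neg (by omega : ¬ n = 0), zero_add]
    by_cases h : i ≤ n
    · rw [if_pos h, coeff_g]
      have e : i ∣ n ↔ i ∣ n - i := by
        constructor
        · exact fun h1 => Nat.dvd_sub h1 (dvd_refl i)
        · intro h1
          have := (Nat.dvd_add_iff_left (m := n - i) (dvd_refl i)).1 h1
          rwa [Nat.sub_add_cancel h] at this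
      by_cases h2 : i ∣ n
      · rw [if_pos h2, if_pos (e.1 h2)]
      · rw [if_neg h2, if_neg (fun h3 => h2 (e.2 h3))]
    · rw [if_neg h, if_neg]
      intro h1
      exact h (Nat.le_of_dvd hn h1)

/-- the product of the `(1 - x^i)^(-l i)`, `1 ≤ i ≤ N` -/
noncomputable def E (l : ℕ → ℕ) (N : ℕ) : ℕ⟦X⟧ := ∏ i ∈ Icc 1 N, g i ^ l i

theorem coeff_mul_g (f : ℕ⟦X⟧) (i w : ℕ) (h : w < i) : coeff w (f * g i) = coeff w f := by
  rw [g_eq i (by omega), mul_add, mul_one, map_add, mul_left_comm, coeff_X_pow_mul',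
    if_neg (by omega), add_zero]

theorem coeff_mul_g_pow (f : ℕ⟦X⟧) (i w k : ℕ) (h : w < i) : coeff w (f * g i ^ k) = coeff w f := by
  induction k with
  | zero => rw [pow_zero, mul_one]
  | succ k ih => rw [pow_succ, ← mul_assoc, coeff_mul_g _ i w h, ih]

theorem E_succ (l : ℕ → ℕ) (N : ℕ) : E l (N + 1) = E l N * g (N + 1) ^ l (N + 1) := by
  unfold E
  rw [Finset.prod_Icc_succ_top (by omega)]

theorem coeff_E (l : ℕ → ℕ) (w k : ℕ) : coeff w (E l (w + k)) = coeff w (E l w) := by
  induction k with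
  | zero => rfl
  | succ k ih => rw [← Nat.add_assoc, E_succ, coeff_mul_g_pow _ _ _ _ (by omega), ih]

/-- the coefficients of the Hilbert series `∏ (1 - x^i)^(-l i)` -/
noncomputable def u (l : ℕ → ℕ) (w : ℕ) : ℕ := coeff w (E l w)

theorem u_eq (l : ℕ → ℕ) (w N : ℕ) (h : w ≤ N) : coeff w (E l N) = u l w := by
  obtain ⟨k, rfl⟩ := Nat.exists_eq_add_of_le h
  exact coeff_E l w k

theorem le_mul (f h : ℕ⟦X⟧) (h0 : coeff 0 h = 1) (w : ℕ) : coeff w f ≤ coeff w (f * h) := by
  rw [coeff_mul]
  have : coeff w f * coeff 0 h ≤ ∑ p ∈ antidiagonal w, coeff p.1 f * coeff p.2 h :=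
    Finset.single_le_sum (f := fun p : ℕ × ℕ => coeff p.1 f * coeff p.2 h) (fun _ _ => Nat.zero_le _)
      (show (w, 0) ∈ antidiagonal w by simp)
  rwa [h0, mul_one] at this

theorem coeff_zero_E (l : ℕ → ℕ) (N : ℕ) : coeff 0 (E l N) = 1 := by
  induction N with
  | zero => simp [E]
  | succ N ih => rw [E_succ, coeff_mul_g_pow _ _ _ _ (by omega), ih]

theorem E_add (l e : ℕ → ℕ) (N : ℕ) : E (fun i => l i + e i) N = E l N * E e N := by
  unfold E
  rw [← Finset.prod_mul_distrib]
  exact Finset.prod_congr rfl fun i _ => pow_add _ _ _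

theorem E_single (n N : ℕ) (h1 : 1 ≤ n) (h2 : n ≤ N) : E (fun i => if i = n then 1 else 0) N = g n := by
  classical
  unfold E
  rw [Finset.prod_eq_single n]
  · simp
  · intro b _ hb
    simp [hb]
  · intro h
    exact absurd (Finset.mem_Icc.2 ⟨h1, h2⟩) h

/-- One strict inequality has an effect in all larger weights. -/
theorem step (l m : ℕ → ℕ) (hle : ∀ i, m i ≤ l i) (n : ℕ) (hn : 1 ≤ n) (hne : l n ≠ m n) (w : ℕ)
    (hw : n ≤ w) : u m w + u l (w - n) ≤ u l w := by
  have hlt : m n < l n := lt_of_le_of_ne (hle n) (Ne.symm hne)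
  let e : ℕ → ℕ := fun i => l i - m i - (if i = n then 1 else 0)
  have hl : l = fun i => (m i + e i) + (if i = n then 1 else 0) := by
    funext i
    simp only [e]
    have := hle i
    split_ifs with h
    · subst h
      omega
    · omega
  have h1 : E l w = (E m w * E e w) * g n := by
    conv_lhs => rw [hl]
    rw [E_add (fun i => m i + e i) (fun i => if i = n then 1 else 0), E_add m e,
      E_single n w hn hw]
  have h2 : u l w = coeff w (E m w * E e w) + coeff (w - n) (E l w) := by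
    unfold u
    conv_lhs => rw [h1, g_eq n hn, mul_add, mul_one, map_add, mul_left_comm, coeff_X_pow_mul',
      if_pos hw, ← h1]
  rw [h2, u_eq l (w - n) w (by omega)]
  exact Nat.add_le_add_right (le_mul _ _ (coeff_zero_E e w) w) _

theorem mono (l m : ℕ → ℕ) (hle : ∀ i, m i ≤ l i) (w : ℕ) : u m w ≤ u l w := by
  have hl : l = fun i => m i + (l i - m i) := by
    funext i
    have := hle i
    omega
  unfold u
  conv_rhs => rw [hl]
  rw [E_add]
  exact le_mul _ _ (coeff_zero_E _ w) w

theorem congr (l m : ℕ → ℕ) (w : ℕ) (h : ∀ i, 1 ≤ i → i ≤ w → l i = m i) : u l w = u m w := by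
  unfold u E
  congr 1
  refine Finset.prod_congr rfl fun i hi => ?_
  rw [h i (Finset.mem_Icc.1 hi).1 (Finset.mem_Icc.1 hi).2]

/-- the coefficients of `1 / (1 - x^3 - x^5 - x^7 - ⋯)` -/
def c : ℕ → ℕ
  | 0 => 1
  | 1 => 0
  | 2 => 0
  | (n + 3) => d n

theorem c_add (n : ℕ) : c (n + 3) = d n := by rw [c]

theorem c_pos (w : ℕ) (h1 : w ≠ 1) (h2 : w ≠ 2) (h4 : w ≠ 4) : 1 ≤ c w := by
  match w with
  | 0 => simp [c]
  | 1 => exact absurd rfl h1
  | 2 => exact absurd rfl h2
  | (n + 3) =>
    rw [c_add]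
    exact d_pos n (by omega)

theorem c_rec2 (n : ℕ) : c (n + 4) = c (n + 2) + c (n + 1) := by
  match n with
  | 0 => simp [c, d]
  | 1 => simp [c, d]
  | (n + 2) =>
    have e1 : c (n + 2 + 4) = d (n + 3) := by rw [show n + 2 + 4 = (n + 3) + 3 by ring, c_add]
    have e2 : c (n + 2 + 2) = d (n + 1) := by rw [show n + 2 + 2 = (n + 1) + 3 by ring, c_add]
    have e3 : c (n + 2 + 1) = d n := by rw [show n + 2 + 1 = n + 3 by ring, c_add]
    rw [e1, e2, e3, d_rec]

/-- the recursion: `c w = c (w - 3) + c (w - 5) + ⋯` -/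
theorem c_rec (w : ℕ) (hw : 1 ≤ w) : c w = ∑ k ∈ (Icc 3 w).filter Odd, c (w - k) := by
  induction w using Nat.strong_induction_on with
  | _ w ih =>
    match w with
    | 0 => omega
    | 1 => decide
    | 2 => decide
    | 3 => decide
    | (n + 4) =>
      rw [c_rec2]
      have h2 := ih (n + 2) (by omega) (by omega)
      rw [h2]
      have e : (Icc 3 (n + 4)).filter Odd = insert 3 (((Icc 3 (n + 2)).filter Odd).image (· + 2)) := by
        ext k
        simp only [Finset.mem_filter, Finset.mem_Icc, Finset.mem_insert, Finset.mem_image]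
        constructor
        · rintro ⟨⟨h1, h2⟩, h3⟩
          by_cases hk : k = 3
          · exact Or.inl hk
          · right
            obtain ⟨j, hj⟩ := h3
            exact ⟨k - 2, ⟨⟨by omega, by omega⟩, ⟨j - 1, by omega⟩⟩, by omega⟩
        · rintro (rfl | ⟨j, ⟨⟨h1, h2⟩, h3⟩, rfl⟩)
          · exact ⟨⟨le_rfl, by omega⟩, by decide⟩
          · refine ⟨⟨by omega, by omega⟩, ?_⟩
            obtain ⟨i, hi⟩ := h3
            exact ⟨i + 1, by omega⟩
      rw [e, Finset.sum_insert, Finset.sum_image]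
      · rw [show n + 4 - 3 = n + 1 by omega, add_comm]
        congr 1
        refine Finset.sum_congr rfl fun k hk => ?_
        congr 1
        omega
      · intro a _ b _ h
        simpa using h
      · intro h
        simp only [Finset.mem_image, Finset.mem_filter, Finset.mem_Icc] at h
        obtain ⟨k, ⟨⟨h1, _⟩, _⟩, h2⟩ := h
        omega

end Pool.Agent.Q263.ZO.HS
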